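import Pool.Agent.Q282.CL.ST

/-!
# Gaussian fluctuations in the generalised Sato–Tate law

`A` is the Jacobian of the hyperelliptic curve `C : Y ^ 2 = X ^ (2 g + 1) + m (2 g) X ^ (2 g) + ... + m 0` of genus `g ≥ 1` over
`ℚ`. At an odd prime `p` for which the polynomial is separable modulo `p` the curve has good reduction, and the conjugacy class
`x_p` of `USp(2g)` is given by the normalised `L`-polynomial
`det (1 - T x_p) = ∑ a_n(p) T ^ n`, `∑ a_n(p) √p ^ n T ^ n = exp (∑ (#C(F_{p ^ r}) - p ^ r - 1) T ^ r / r)`.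

The integral of `∏ a_{i_j}` over `USp(2g)`, for `∑ i_j ≤ 2 g + 1`, is the number of the symmetric matrices with entries in `ℕ`, even
entries on the diagonal and row sums `i_j`. Hence for a class function `φ = ∑ c_j ∏ a_{i_{j k}}` of degree at most `g` the integral
and the variance `∫ φ ^ 2 - (∫ φ) ^ 2` are known. It is proved that the fluctuations of the sums `∑_{k < s n} φ(x_{p_k})` over the first
primes `p_0 = 2, p_1 = 3, ...` around `s n ∫ φ`, divided by `√n`, become the Brownian motion with the variance of `φ`, if `n → ∞` and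
the coefficients of the curve are taken at random from a box with sides larger than every fixed power of `p_n`.

Proof. The means over the polynomials modulo `p` of the products of degree at most `2 g + 1` are computed in
`MP_c481b3_nt.ClassFunctionsHyperelliptic`, up to `O(1 / p)`. This gives the local means and covariances. The characteristic
function of the vector of the partial sums is compared with that of independent variables by the Taylor polynomial of degree `2 k`,
the chinese remainder theorem and exponential moments.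
-/

set_option autoImplicit false

namespace Pool.Agent.Results.MP_753a9c_nt.BrownianFluctuations

open Finset
open scoped NNReal

open Classical in
/-- The number of the solutions of `Y ^ 2 = X ^ (2 g + 1) + m (2 g) X ^ (2 g) + ... + m 0` in the field with `p ^ r` elements: the
number of the points of the curve over `F_{p ^ r}`, the point at infinity not included (`p` is a prime, `r ≥ 1`). -/
noncomputable def points {g : ℕ} (p r : ℕ) (m : Fin (2 * g + 1) → ℤ) : ℕ :=
  if h : p.Prime then
    haveI : Fact p.Prime := ⟨h⟩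
    Nat.card {P : GaloisField p r × GaloisField p r //
      P.2 ^ 2 = P.1 ^ (2 * g + 1) + ∑ i, (m i : GaloisField p r) * P.1 ^ (i : ℕ)}
  else 0

/-- The coefficients of the power series `exp (∑ T r X ^ r / r)`: `c 0 = 1` and `n * c n = ∑ c (n - r) * T r`, the sum over
`r = 1, ..., n`. -/
noncomputable def expCoeff (T : ℕ → ℝ) : ℕ → ℝ
  | 0 => 1
  | n + 1 => (∑ r : Fin (n + 1), expCoeff T (n - r) * T (r + 1)) / (n + 1)
termination_by n => n
decreasing_by omega

/-- `p` is odd and `X ^ (2 g + 1) + m (2 g) X ^ (2 g) + ... + m 0` is separable modulo `p`, so that the curve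
`Y ^ 2 = X ^ (2 g + 1) + m (2 g) X ^ (2 g) + ... + m 0` has good reduction at `p`. -/
def Good {g : ℕ} (p : ℕ) (m : Fin (2 * g + 1) → ℤ) : Prop :=
  p ≠ 2 ∧ (Polynomial.X ^ (2 * g + 1) +
    ∑ i, Polynomial.C (m i : ZMod p) * Polynomial.X ^ (i : ℕ) : Polynomial (ZMod p)).Separable

/-- The coefficient `a_n(p)` of `T ^ n` of the normalised `L`-polynomial `det (1 - T x_p)` at the prime `p` of the Jacobian of the
curve `C : Y ^ 2 = X ^ (2 g + 1) + m (2 g) X ^ (2 g) + ... + m 0`: the coefficient of `T ^ n` in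
`exp (∑ (#C(F_{p ^ r}) - p ^ r - 1) T ^ r / r)` divided by `√p ^ n`. -/
noncomputable def coef {g : ℕ} (p n : ℕ) (m : Fin (2 * g + 1) → ℤ) : ℝ :=
  expCoeff (fun r => (points p r m : ℝ) - (p : ℝ) ^ r) n / (Real.sqrt p) ^ n

/-- The number of the symmetric matrices with entries in `ℕ`, even entries on the diagonal and row sums `i 0, i 1, ...`: for
`∑ i j ≤ 2 g + 1` this is the integral of the product of the coefficients of `T ^ (i j)` of `det (1 - T x)` over `USp(2g)`. -/
noncomputable def haar {l : ℕ} (i : Fin l → ℕ) : ℕ :=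
  Nat.card {S : Matrix (Fin l) (Fin l) ℕ // (∀ j k, S j k = S k j) ∧ (∀ j, Even (S j j)) ∧ ∀ j, ∑ k, S j k = i j}

/-- The variance of the class function `φ = ∑ j, c j * ∏ k, a_(i j k)` of degree at most `g` with respect to the Haar measure of
`USp(2g)`. -/
noncomputable def variance {l r : ℕ} (c : Fin l → ℝ) (i : Fin l → Fin r → ℕ) : ℝ :=
  ∑ j, ∑ k, c j * c k * ((haar (Fin.append (i j) (i k)) : ℝ) - haar (i j) * haar (i k))

open Classical in
/-- The value `φ(x_p) - ∫ φ` for the class function `φ = ∑ j, c j * ∏ k, a_(i j k)`, at the primes with `Good p m`; at the other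
primes it is put equal to `0`. -/
noncomputable def centred {g l r : ℕ} (c : Fin l → ℝ) (i : Fin l → Fin r → ℕ) (p : ℕ) (m : Fin (2 * g + 1) → ℤ) : ℝ :=
  if Good p m then ∑ j, c j * (∏ k, coef p (i j k) m - haar (i j)) else 0

/-- The fluctuation at the time `s`: the sum of `φ(x_p) - ∫ φ` over the first `s n` primes `p`, divided by `√(σ ^ 2 n)`, where
`σ ^ 2` is the variance of `φ`. -/
noncomputable def fluctuation {g l r : ℕ} (c : Fin l → ℝ) (i : Fin l → Fin r → ℕ) (n : ℕ) (s : ℝ) (m : Fin (2 * g + 1) → ℤ) : ℝ :=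
  (∑ k ∈ range ⌊s * n⌋₊, centred c i (Nat.nth Nat.Prime k) m) / Real.sqrt (variance c i * n)

/-- The box of the `m` with `N i ≤ m i < N i + L i` for all `i`. -/
noncomputable def box {k : ℕ} (N : Fin k → ℤ) (L : Fin k → ℕ) : Finset (Fin k → ℤ) := Fintype.piFinset fun i => Ico (N i) (N i + L i)

open Classical in
/-- The proportion of the `m` of the box with the property `P`. -/
noncomputable def proportion {k : ℕ} (N : Fin k → ℤ) (L : Fin k → ℕ) (P : (Fin k → ℤ) → Prop) : ℝ :=
  (((box N L).filter P).card : ℝ) / ∏ i, (L i : ℝ)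

/-- The distribution function of the Brownian motion `B` at the times `s ∈ I`: the probability that `B_s ≤ x_s` for all `s ∈ I`. -/
noncomputable def brownian (I : Finset ℝ≥0) (x : I → ℝ) : ℝ :=
  (ProbabilityTheory.BrownianReal.projectiveFamily I (Set.Iic x)).toReal

/-! ### Proofs -/

lemma card_affine {F : Type} [Field F] [Fintype F] [DecidableEq F] (hchar : ringChar F ≠ 2) (f : F → F) :
    (Nat.card {P : F × F // P.2 ^ 2 = f P.1} : ℝ) = (Fintype.card F : ℝ) + ∑ x : F, (quadraticChar F (f x) : ℝ) := by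
  classical
  have h1 : Nat.card {P : F × F // P.2 ^ 2 = f P.1} = ∑ x : F, Nat.card {y : F // y ^ 2 = f x} := by
    rw [← Nat.card_sigma]
    refine Nat.card_congr ⟨fun P => ⟨P.1.1, ⟨P.1.2, P.2⟩⟩, fun P => ⟨(P.1, P.2.1), P.2.2⟩, fun _ => rfl, fun _ => rfl⟩
  have h2 : ∀ x : F, ((Nat.card {y : F // y ^ 2 = f x} : ℕ) : ℤ) = quadraticChar F (f x) + 1 := by
    intro x
    rw [← quadraticChar_card_sqrts hchar (f x)]
    congr 1
    rw [Nat.card_eq_fintype_card, Fintype.card_subtype]
    congr 1
    ext y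
    simp
  rw [h1]
  push_cast
  have h3 : ∀ x : F, ((Nat.card {y : F // y ^ 2 = f x} : ℕ) : ℝ) = (quadraticChar F (f x) : ℝ) + 1 := by
    intro x
    have := h2 x
    exact_mod_cast this
  rw [sum_congr rfl (fun x _ => h3 x), sum_add_distrib, sum_const, card_univ, nsmul_eq_mul, mul_one]
  ring

lemma points_eq {g : ℕ} (p : ℕ) [Fact p.Prime] (hp2 : p ≠ 2) (r : ℕ) (hr : 1 ≤ r) (m : Fin (2 * g + 1) → ℤ) :
    (points p r m : ℝ) - (p : ℝ) ^ r =
      Pool.Agent.H341R2.Sharp.T (Q282.HL.mpol (2 * g + 1) (fun i => (m i : ZMod p))) r := by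
  classical
  have hp : p.Prime := Fact.out
  have hcharF : ringChar (ZMod p) ≠ 2 := by
    rw [ZMod.ringChar_zmod_n]
    exact hp2
  let _ : Fintype (GaloisField p r) := Fintype.ofFinite _
  have hfr : Module.finrank (ZMod p) (GaloisField p r) = r := GaloisField.finrank p (by omega)
  have hcard : (Fintype.card (GaloisField p r) : ℝ) = (p : ℝ) ^ r := by
    rw [Module.card_eq_pow_finrank (K := ZMod p) (V := GaloisField p r), hfr, ZMod.card]
    push_cast
    rfl
  have hcharE : ringChar (GaloisField p r) ≠ 2 := by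
    rwa [← Algebra.ringChar_eq (ZMod p) (GaloisField p r)]
  have h4 := Pool.Agent.H341R2.Sharp.T_eq_sum (E := GaloisField p r) hcharF
    (Q282.HL.mpol (2 * g + 1) (fun i => (m i : ZMod p)))
  rw [hfr] at h4
  unfold points
  rw [dif_pos hp, card_affine hcharE (fun x => x ^ (2 * g + 1) + ∑ i, (m i : GaloisField p r) * x ^ (i : ℕ)), hcard,
    add_sub_cancel_left, h4]
  push_cast
  refine sum_congr rfl fun x _ => ?_
  congr 2
  unfold Q282.HL.mpol Q282.HL.low
  simp only [map_add, map_pow, Polynomial.aeval_X, map_sum, map_mul, map_intCast]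

lemma expCoeff_eq {g : ℕ} (p : ℕ) [Fact p.Prime] (hp2 : p ≠ 2) (m : Fin (2 * g + 1) → ℤ) (n : ℕ) :
    expCoeff (fun r => (points p r m : ℝ) - (p : ℝ) ^ r) n =
      Pool.Agent.H341R2.Sharp.A (Q282.HL.mpol (2 * g + 1) (fun i => (m i : ZMod p))) n := by
  induction n using Nat.strong_induction_on with
  | _ n ih =>
    rcases n with _ | n
    · rw [expCoeff, Pool.Agent.H341R2.Sharp.A_zero]
      simp
    · have h1 := Pool.Agent.H341R2.Sharp.n_mul_A (Q282.HL.mpol (2 * g + 1) (fun i => (m i : ZMod p))) (n + 1)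
      have h2 : ((n : ℝ) + 1) * (Pool.Agent.H341R2.Sharp.A (Q282.HL.mpol (2 * g + 1) (fun i => (m i : ZMod p))) (n + 1) : ℝ) =
          ∑ r ∈ Icc 1 (n + 1), (Pool.Agent.H341R2.Sharp.A (Q282.HL.mpol (2 * g + 1) (fun i => (m i : ZMod p))) (n + 1 - r) : ℝ) *
            Pool.Agent.H341R2.Sharp.T (Q282.HL.mpol (2 * g + 1) (fun i => (m i : ZMod p))) r := by
        exact_mod_cast h1
      have hn : ((n : ℝ) + 1) ≠ 0 := by positivity
      have h3 : ∀ F : ℕ → ℝ, ∑ r ∈ Icc 1 (n + 1), F r = ∑ r : Fin (n + 1), F (r + 1) := by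
        intro F
        rw [Fin.sum_univ_eq_sum_range (fun r => F (r + 1)) (n + 1)]
        symm
        refine sum_nbij' (fun r => r + 1) (fun r => r - 1) ?_ ?_ ?_ ?_ ?_
        · intro r hr
          rw [mem_range] at hr
          rw [mem_Icc]
          omega
        · intro r hr
          rw [mem_Icc] at hr
          rw [mem_range]
          omega
        · intro r _
          exact Nat.add_sub_cancel r 1
        · intro r hr
          rw [mem_Icc] at hr
          exact Nat.sub_add_cancel hr.1
        · intro r _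
          rfl
      rw [expCoeff, div_eq_iff hn, mul_comm _ ((n : ℝ) + 1), h2, h3]
      refine sum_congr rfl fun r _ => ?_
      have hr : (r : ℕ) < n + 1 := r.2
      rw [ih (n - r) (by omega), points_eq p hp2 (r + 1) (by omega) m]
      congr 3
      omega

lemma haar_eq {l : ℕ} (i : Fin l → ℕ) : haar i = Q282.HL.symm i := rfl

lemma variance_eq {l r : ℕ} (c : Fin l → ℝ) (i : Fin l → Fin r → ℕ) : variance c i = Q282.CL.sg c i := rfl

lemma proportion_eq {k : ℕ} (N : Fin k → ℤ) (L : Fin k → ℕ) (P : (Fin k → ℤ) → Prop) [DecidablePred P] :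
    proportion N L P = (((box N L).filter P).card : ℝ) / ∏ i, (L i : ℝ) := by
  classical
  unfold proportion
  congr 2
  refine congrArg Finset.card ?_
  ext t
  simp only [mem_filter]

lemma centred_eq {g l r : ℕ} (c : Fin l → ℝ) (i : Fin l → Fin r → ℕ) (hs : 0 < variance c i) (p : ℕ) (hp : p.Prime)
    (m : Fin (2 * g + 1) → ℤ) :
    centred c i p m = Real.sqrt (variance c i) * Q282.CL.HS c i p (fun k => (m k : ZMod p)) := by
  classical
  have : Fact p.Prime := ⟨hp⟩
  have hσ : 0 < Real.sqrt (variance c i) := Real.sqrt_pos.2 hs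
  unfold Q282.CL.HS
  rw [dif_pos hp, ← variance_eq, mul_div_cancel₀ _ hσ.ne']
  have hgood : Good p m ↔ (2 : ZMod p) ≠ 0 ∧ Squarefree (Q282.HL.mpol (2 * g + 1) (fun k => (m k : ZMod p))) := by
    unfold Good
    have h1 : p ≠ 2 ↔ (2 : ZMod p) ≠ 0 := by
      rw [not_iff_not]
      constructor
      · intro h
        have h3 : ((2 : ℕ) : ZMod p) = 0 := by rw [ZMod.natCast_eq_zero_iff, h]
        exact_mod_cast h3
      · intro h
        have h3 : ((2 : ℕ) : ZMod p) = 0 := by exact_mod_cast h
        rw [ZMod.natCast_eq_zero_iff] at h3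
        exact (Nat.prime_dvd_prime_iff_eq hp Nat.prime_two).1 h3
    rw [h1, ← PerfectField.separable_iff_squarefree]
    rfl
  unfold centred
  by_cases h : Good p m
  · rw [if_pos h]
    refine sum_congr rfl fun j _ => ?_
    unfold Q282.AX.locS
    rw [if_pos (hgood.1 h)]
    congr 2
    refine prod_congr rfl fun k _ => ?_
    unfold coef
    rw [expCoeff_eq p h.1 m (i j k), ZMod.card]
  · rw [if_neg h]
    symm
    refine sum_eq_zero fun j _ => ?_
    unfold Q282.AX.locS
    rw [if_neg (fun h' => h (hgood.2 h')), mul_zero]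

open Classical in
/-- Let `g ≥ 1`. (1) Let `φ = ∑ c_j ∏ a_{i_{j k}}` be a class function of degree at most `g` on `USp(2g)` (a real linear combination
of monomials in the coefficients `a_n` of `det (1 - T x)` with sums of indices `≤ g`) of variance `σ ^ 2 > 0`, let `I` be a finite set
of times `s` with `0 < s ≤ 1`, `x_s` (`s ∈ I`) real numbers and `ε > 0`. There is an `M` such that for all `n ≥ M` and for
every box `N k ≤ m k < N k + L k` with sides `L k ≥ p_n ^ M` the proportion of the curves
`Y ^ 2 = X ^ (2 g + 1) + m (2 g) X ^ (2 g) + ... + m 0` with `m` in the box such that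
`∑_{k < s n} (φ(x_{p_k}) - ∫ φ) ≤ x_s √(σ ^ 2 n)` for all `s ∈ I` differs by at most `ε` from the probability that the
Brownian motion `B` satisfies `B_s ≤ x_s` for all `s ∈ I`. (2) The variance of the coefficient `a_j` is `(j + 1) / 2` (rounded
down). -/
theorem result (g : ℕ) (hg : 1 ≤ g) :
    (∀ (l r : ℕ) (c : Fin l → ℝ) (i : Fin l → Fin r → ℕ), (∀ j, ∑ k, i j k ≤ g) → 0 < variance c i →
      ∀ I : Finset ℝ≥0, (∀ s ∈ I, 0 < s ∧ s ≤ 1) → ∀ (x : I → ℝ) (ε : ℝ), 0 < ε →
      ∃ M : ℕ, ∀ n : ℕ, M ≤ n → ∀ (N : Fin (2 * g + 1) → ℤ) (L : Fin (2 * g + 1) → ℕ), (∀ k, Nat.nth Nat.Prime n ^ M ≤ L k) →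
        |proportion N L (fun m => ∀ s : I, fluctuation c i n (s : ℝ≥0) m ≤ x s) - brownian I x| ≤ ε) ∧
    ∀ j : ℕ, variance (fun _ : Fin 1 => (1 : ℝ)) (fun _ _ : Fin 1 => j) = ((j + 1) / 2 : ℕ) := by
  constructor
  · intro l r c i hi hs I hI x ε hε
    obtain ⟨B, hB, hH, h2, h3⟩ := Q282.CL.class_data g c i hi hs
    obtain ⟨X₁, h⟩ := Q282.CL.donsker (κ := Fin (2 * g + 1)) hB I hI x ε hε
    refine ⟨X₁ + 1, fun n hn N L hL => ?_⟩
    have h1 := h
      { m := X₁ + 1
        n := n
        N := N
        L := L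
        H := Q282.CL.HS c i
        hm := by omega
        hn := hn
        hL := fun k => by exact_mod_cast hL k
        hH := hH
        h2 := h2
        h3 := h3 } (by show X₁ ≤ X₁ + 1; omega)
    rw [proportion_eq]
    have hσ : 0 < Real.sqrt (variance c i) := Real.sqrt_pos.2 hs
    have e : ∀ (s : ℝ) (m : Fin (2 * g + 1) → ℤ), fluctuation c i n s m =
        (∑ k ∈ range ⌊s * n⌋₊, Q282.CL.HS c i (Nat.nth Nat.Prime k) (fun i => (m i : ZMod _))) / Real.sqrt n := by
      intro s m
      unfold fluctuation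
      rw [sum_congr rfl fun k _ => centred_eq c i hs _ (Nat.prime_nth_prime k) m, ← mul_sum, Real.sqrt_mul hs.le,
        mul_div_mul_left _ _ hσ.ne']
    simp only [e]
    exact h1
  · intro j
    unfold variance
    rw [Fin.sum_univ_one, Fin.sum_univ_one]
    rw [haar_eq, haar_eq, Q282.CL.symm_two, Q282.CL.symm_one]
    split_ifs with h
    · obtain ⟨a, ha⟩ := h
      have h1 : j / 2 = a := by omega
      have h2 : (j + 1) / 2 = a := by omega
      rw [h1, h2]
      push_cast
      ring
    · have h1 : (j + 1) / 2 = j / 2 + 1 := by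
        rw [Nat.not_even_iff_odd] at h
        obtain ⟨a, ha⟩ := h
        omega
      rw [h1]
      push_cast
      ring

end Pool.Agent.Results.MP_753a9c_nt.BrownianFluctuations
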