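import Pool.Agent.Q69.CR.Ell

/-!
# Moderate deviations in the generalised Sato–Tate law for products of Jacobians

`A` is the product of the Jacobians of `k` hyperelliptic curves `C_a : Y ^ 2 = X ^ (2 g + 1) + m (a, 2 g) X ^ (2 g) + ... + m (a, 0)` of
genus `g ≥ 1` over `ℚ`; the generic member of the family has the Sato–Tate group `USp(2g) × ... × USp(2g)`. The normalised `L`-polynomial
of the Jacobian of `C_a` at an odd prime `p` for which the polynomial is separable modulo `p` is `∑ a_n(p) T ^ n` with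
`∑ a_n(p) √p ^ n T ^ n = exp (∑ (#C_a(F_{p ^ r}) - p ^ r - 1) T ^ r / r)`. Let `φ = ∑_j c_j ∏_a ∏_b a_{i_{j a b}}(C_a)` be a class function
of degree at most `g` in every factor (for instance every coefficient `a_n(A)`, `n ≤ g`, and for `g = 1` every coefficient `a_n(A)`,
`n ≤ 2 k`, see (2)). Its integral and its variance `σ ^ 2` over the product of the groups are given by numbers of symmetric matrices.

(1) The deviations of the averages of `φ` over the first `n` primes from its integral have the Gaussian order of probability in the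
complete range: for `y₀ ≤ y ≤ δ √n` and every box of coefficients with sides at least `p_n ^ (K y ^ 2)` the proportion of the `m` with
`∑_{q < n} (φ(x_{p_q}) - ∫ φ) ≥ y σ √n` lies between `exp (-(1 + ε) y ^ 2 / 2)` and `exp (-(1 - ε) y ^ 2 / 2)`, and the same holds for
`≤ -y σ √n`. Here `K`, `y₀` and `δ` depend on `g`, `k`, `φ` and `ε` only.

(2) For `g = 1` and `A = E_1 × ... × E_k` the same is true for every coefficient `a_n(A)(p)`, `0 < n < 2 k`, of the normalised
`L`-polynomial `∏_a (1 + a_1(E_a) T + T ^ 2)` of `A`: its integral over `SU(2) ^ k` is the coefficient of `T ^ n` in `(1 + T ^ 2) ^ k`, and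
its variance is the sum over the nonempty sets `S` of factors of the squares of the coefficients of `T ^ n` in
`T ^ |S| (1 + T ^ 2) ^ (k - |S|)`.

Proof. The local covariances of the monomials (library `Q282`) are multiplicative over the factors (`Q69.CR.Prd`); moderate deviations
for sums over primes of functions of the residues of a random point of a box (`Q69.CR`).
-/

set_option autoImplicit false

namespace Pool.Agent.Results.MP_753a9c_nt.ModerateDeviations

open Finset

open Classical in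
/-- The number of the solutions of `Y ^ 2 = X ^ (2 g + 1) + m (2 g) X ^ (2 g) + ... + m 0` in the field with `p ^ r` elements: the
number of the points of the curve over `F_{p ^ r}`, the point at infinity not included (`p` is a prime, `r ≥ 1`). -/
noncomputable def points {g : ℕ} (p r : ℕ) (m : Fin (2 * g + 1) → ℤ) : ℕ :=
  if h : p.Prime then
    haveI : Fact p.Prime := ⟨h⟩
    Nat.card {P : GaloisField p r × GaloisField p r //
      P.2 ^ 2 = P.1 ^ (2 * g + 1) + ∑ i, (m i : GaloisField p r) * P.1 ^ (i : ℕ)}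
  else 0

/-- The coefficients of the power series `exp (∑ T r X ^ r / r)`: `c 0 = 1` and `n * c n = ∑ c (n - r) * T r`, the sum over
`r = 1, ..., n`. -/
noncomputable def expCoeff (T : ℕ → ℝ) : ℕ → ℝ
  | 0 => 1
  | n + 1 => (∑ r : Fin (n + 1), expCoeff T (n - r) * T (r + 1)) / (n + 1)
termination_by n => n
decreasing_by omega

/-- `p` is odd and `X ^ (2 g + 1) + m (2 g) X ^ (2 g) + ... + m 0` is separable modulo `p`, so that the curve
`Y ^ 2 = X ^ (2 g + 1) + m (2 g) X ^ (2 g) + ... + m 0` has good reduction at `p`. -/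
def Good {g : ℕ} (p : ℕ) (m : Fin (2 * g + 1) → ℤ) : Prop :=
  p ≠ 2 ∧ (Polynomial.X ^ (2 * g + 1) +
    ∑ i, Polynomial.C (m i : ZMod p) * Polynomial.X ^ (i : ℕ) : Polynomial (ZMod p)).Separable

/-- The coefficient `a_n(p)` of `T ^ n` of the normalised `L`-polynomial `det (1 - T x_p)` at the prime `p` of the Jacobian of the
curve `C : Y ^ 2 = X ^ (2 g + 1) + m (2 g) X ^ (2 g) + ... + m 0`: the coefficient of `T ^ n` in
`exp (∑ (#C(F_{p ^ r}) - p ^ r - 1) T ^ r / r)` divided by `√p ^ n`. -/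
noncomputable def coef {g : ℕ} (p n : ℕ) (m : Fin (2 * g + 1) → ℤ) : ℝ :=
  expCoeff (fun r => (points p r m : ℝ) - (p : ℝ) ^ r) n / (Real.sqrt p) ^ n

/-- The number of the symmetric matrices with entries in `ℕ`, even entries on the diagonal and row sums `i 0, i 1, ...`: for
`∑ i j ≤ 2 g + 1` this is the integral of the product of the coefficients of `T ^ (i j)` of `det (1 - T x)` over `USp(2g)`. -/
noncomputable def haar {l : ℕ} (i : Fin l → ℕ) : ℕ :=
  Nat.card {S : Matrix (Fin l) (Fin l) ℕ // (∀ j k, S j k = S k j) ∧ (∀ j, Even (S j j)) ∧ ∀ j, ∑ k, S j k = i j}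

/-- The coefficients of the curve `C_a`. -/
def curve {g k : ℕ} (m : Fin k × Fin (2 * g + 1) → ℤ) (a : Fin k) : Fin (2 * g + 1) → ℤ := fun i => m (a, i)

/-- The product over the factors of the numbers `haar`. -/
noncomputable def haarProd {k l : ℕ} (i : Fin k → Fin l → ℕ) : ℝ := ∏ a, (haar (i a) : ℝ)

/-- The variance of the class function `φ = ∑ j, c j * ∏ a, ∏ b, a_(i j a b)(C_a)` of degree at most `g` in each factor with respect to
the Haar measure of `USp(2g) × ... × USp(2g)`. -/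
noncomputable def variance {J : Type} [Fintype J] {k r : ℕ} (c : J → ℝ) (i : J → Fin k → Fin r → ℕ) : ℝ :=
  ∑ j, ∑ j', c j * c j' * (haarProd (fun a => Fin.append (i j a) (i j' a)) - haarProd (i j) * haarProd (i j'))

open Classical in
/-- The value `φ(x_p) - ∫ φ` for the class function `φ = ∑ j, c j * ∏ a, ∏ b, a_(i j a b)(C_a)` at the primes at which all curves have
good reduction; at the other primes it is put equal to `0`. -/
noncomputable def centred {J : Type} [Fintype J] {g k r : ℕ} (c : J → ℝ) (i : J → Fin k → Fin r → ℕ) (p : ℕ)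
    (m : Fin k × Fin (2 * g + 1) → ℤ) : ℝ :=
  if ∀ a, Good p (curve m a) then ∑ j, c j * (∏ a, ∏ b, coef p (i j a b) (curve m a) - haarProd (i j)) else 0

/-- The normalised deviation: the sum of `φ(x_p) - ∫ φ` over the first `n` primes `p`, divided by `√(σ ^ 2 n)`, where `σ ^ 2` is the
variance of `φ`. -/
noncomputable def deviation {J : Type} [Fintype J] {g k r : ℕ} (c : J → ℝ) (i : J → Fin k → Fin r → ℕ) (n : ℕ)
    (m : Fin k × Fin (2 * g + 1) → ℤ) : ℝ :=
  (∑ q ∈ range n, centred c i (Nat.nth Nat.Prime q) m) / Real.sqrt (variance c i * n)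

/-- For `g = 1`: the coefficient `a_n(A)(p)` of `T ^ n` in the normalised `L`-polynomial `∏_a (1 + a_1(E_a)(p) T + T ^ 2)` of the
product `A` of the curves `E_a`. -/
noncomputable def prodCoef {k : ℕ} (n p : ℕ) (m : Fin k × Fin (2 * 1 + 1) → ℤ) : ℝ :=
  (∏ a, (1 + Polynomial.C (coef (g := 1) p 1 (curve m a)) * Polynomial.X + Polynomial.X ^ 2 : Polynomial ℝ)).coeff n

/-- The integral of the coefficient `a_n` over `SU(2) ^ k`: the coefficient of `T ^ n` in `(1 + T ^ 2) ^ k`. -/
noncomputable def prodMean (k n : ℕ) : ℝ := ((1 + Polynomial.X ^ 2 : Polynomial ℝ) ^ k).coeff n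

/-- The variance of the coefficient `a_n` over `SU(2) ^ k`: the sum over the nonempty sets `S` of factors of the squares of the
coefficients of `T ^ n` in `T ^ |S| (1 + T ^ 2) ^ (k - |S|)`. -/
noncomputable def prodVariance (k n : ℕ) : ℝ :=
  ∑ S ∈ (univ : Finset (Finset (Fin k))).erase ∅,
    ((Polynomial.X : Polynomial ℝ) ^ S.card * (1 + Polynomial.X ^ 2) ^ (k - S.card)).coeff n ^ 2

open Classical in
/-- The normalised deviation of the average of `a_n(A)(p)` over the first `N` primes; the primes at which not all curves have good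
reduction contribute `0`. -/
noncomputable def prodDeviation {k : ℕ} (n N : ℕ) (m : Fin k × Fin (2 * 1 + 1) → ℤ) : ℝ :=
  (∑ q ∈ range N, if ∀ a, Good (g := 1) (Nat.nth Nat.Prime q) (curve m a) then prodCoef n (Nat.nth Nat.Prime q) m - prodMean k n else 0) /
    Real.sqrt (prodVariance k n * N)

/-- The box of the `m` with `N i ≤ m i < N i + L i` for all `i`. -/
noncomputable def box {κ : Type} [Fintype κ] [DecidableEq κ] (N : κ → ℤ) (L : κ → ℕ) : Finset (κ → ℤ) :=
  Fintype.piFinset fun i => Ico (N i) (N i + L i)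

open Classical in
/-- The proportion of the `m` of the box with the property `P`. -/
noncomputable def proportion {κ : Type} [Fintype κ] [DecidableEq κ] (N : κ → ℤ) (L : κ → ℕ) (P : (κ → ℤ) → Prop) : ℝ :=
  (((box N L).filter P).card : ℝ) / ∏ i, (L i : ℝ)

/-- For all `n`, all `y` with `y₀ ≤ y ≤ δ √n` and every box with sides at least `p_n ^ (K y ^ 2)` the proportions of the `m` with
`D n m ≥ y` and with `D n m ≤ -y` lie between `exp (-(1 + ε) y ^ 2 / 2)` and `exp (-(1 - ε) y ^ 2 / 2)`. -/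
def GaussianTails {κ : Type} [Fintype κ] [DecidableEq κ] (ε K y₀ δ : ℝ) (D : ℕ → (κ → ℤ) → ℝ) : Prop :=
  ∀ (n : ℕ) (y : ℝ), y₀ ≤ y → y ≤ δ * Real.sqrt n → ∀ (N : κ → ℤ) (L : κ → ℕ),
    (∀ i, (Nat.nth Nat.Prime n : ℝ) ^ (K * y ^ 2) ≤ L i) →
    (Real.exp (-((1 + ε) * (y ^ 2 / 2))) ≤ proportion N L (fun m => y ≤ D n m) ∧
      proportion N L (fun m => y ≤ D n m) ≤ Real.exp (-((1 - ε) * (y ^ 2 / 2)))) ∧
    (Real.exp (-((1 + ε) * (y ^ 2 / 2))) ≤ proportion N L (fun m => D n m ≤ -y) ∧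
      proportion N L (fun m => D n m ≤ -y) ≤ Real.exp (-((1 - ε) * (y ^ 2 / 2))))

/-! ### Proofs -/

lemma card_affine {F : Type} [Field F] [Fintype F] [DecidableEq F] (hchar : ringChar F ≠ 2) (f : F → F) :
    (Nat.card {P : F × F // P.2 ^ 2 = f P.1} : ℝ) = (Fintype.card F : ℝ) + ∑ x : F, (quadraticChar F (f x) : ℝ) := by
  classical
  have h1 : Nat.card {P : F × F // P.2 ^ 2 = f P.1} = ∑ x : F, Nat.card {y : F // y ^ 2 = f x} := by
    rw [← Nat.card_sigma]
    refine Nat.card_congr ⟨fun P => ⟨P.1.1, ⟨P.1.2, P.2⟩⟩, fun P => ⟨(P.1, P.2.1), P.2.2⟩, fun _ => rfl, fun _ => rfl⟩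
  have h2 : ∀ x : F, ((Nat.card {y : F // y ^ 2 = f x} : ℕ) : ℤ) = quadraticChar F (f x) + 1 := by
    intro x
    rw [← quadraticChar_card_sqrts hchar (f x)]
    congr 1
    rw [Nat.card_eq_fintype_card, Fintype.card_subtype]
    congr 1
    ext y
    simp
  rw [h1]
  push_cast
  have h3 : ∀ x : F, ((Nat.card {y : F // y ^ 2 = f x} : ℕ) : ℝ) = (quadraticChar F (f x) : ℝ) + 1 := by
    intro x
    have := h2 x
    exact_mod_cast this
  rw [sum_congr rfl (fun x _ => h3 x), sum_add_distrib, sum_const, card_univ, nsmul_eq_mul, mul_one]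
  ring

lemma points_eq {g : ℕ} (p : ℕ) [Fact p.Prime] (hp2 : p ≠ 2) (r : ℕ) (hr : 1 ≤ r) (m : Fin (2 * g + 1) → ℤ) :
    (points p r m : ℝ) - (p : ℝ) ^ r =
      Pool.Agent.H341R2.Sharp.T (Q282.HL.mpol (2 * g + 1) (fun i => (m i : ZMod p))) r := by
  classical
  have hp : p.Prime := Fact.out
  have hcharF : ringChar (ZMod p) ≠ 2 := by
    rw [ZMod.ringChar_zmod_n]
    exact hp2
  let _ : Fintype (GaloisField p r) := Fintype.ofFinite _
  have hfr : Module.finrank (ZMod p) (GaloisField p r) = r := GaloisField.finrank p (by omega)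
  have hcard : (Fintype.card (GaloisField p r) : ℝ) = (p : ℝ) ^ r := by
    rw [Module.card_eq_pow_finrank (K := ZMod p) (V := GaloisField p r), hfr, ZMod.card]
    push_cast
    rfl
  have hcharE : ringChar (GaloisField p r) ≠ 2 := by
    rwa [← Algebra.ringChar_eq (ZMod p) (GaloisField p r)]
  have h4 := Pool.Agent.H341R2.Sharp.T_eq_sum (E := GaloisField p r) hcharF
    (Q282.HL.mpol (2 * g + 1) (fun i => (m i : ZMod p)))
  rw [hfr] at h4
  unfold points
  rw [dif_pos hp, card_affine hcharE (fun x => x ^ (2 * g + 1) + ∑ i, (m i : GaloisField p r) * x ^ (i : ℕ)), hcard,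
    add_sub_cancel_left, h4]
  push_cast
  refine sum_congr rfl fun x _ => ?_
  congr 2
  unfold Q282.HL.mpol Q282.HL.low
  simp only [map_add, map_pow, Polynomial.aeval_X, map_sum, map_mul, map_intCast]

lemma expCoeff_eq {g : ℕ} (p : ℕ) [Fact p.Prime] (hp2 : p ≠ 2) (m : Fin (2 * g + 1) → ℤ) (n : ℕ) :
    expCoeff (fun r => (points p r m : ℝ) - (p : ℝ) ^ r) n =
      Pool.Agent.H341R2.Sharp.A (Q282.HL.mpol (2 * g + 1) (fun i => (m i : ZMod p))) n := by
  induction n using Nat.strong_induction_on with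
  | _ n ih =>
    rcases n with _ | n
    · rw [expCoeff, Pool.Agent.H341R2.Sharp.A_zero]
      simp
    · have h1 := Pool.Agent.H341R2.Sharp.n_mul_A (Q282.HL.mpol (2 * g + 1) (fun i => (m i : ZMod p))) (n + 1)
      have h2 : ((n : ℝ) + 1) * (Pool.Agent.H341R2.Sharp.A (Q282.HL.mpol (2 * g + 1) (fun i => (m i : ZMod p))) (n + 1) : ℝ) =
          ∑ r ∈ Icc 1 (n + 1), (Pool.Agent.H341R2.Sharp.A (Q282.HL.mpol (2 * g + 1) (fun i => (m i : ZMod p))) (n + 1 - r) : ℝ) *
            Pool.Agent.H341R2.Sharp.T (Q282.HL.mpol (2 * g + 1) (fun i => (m i : ZMod p))) r := by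
        exact_mod_cast h1
      have hn : ((n : ℝ) + 1) ≠ 0 := by positivity
      have h3 : ∀ F : ℕ → ℝ, ∑ r ∈ Icc 1 (n + 1), F r = ∑ r : Fin (n + 1), F (r + 1) := by
        intro F
        rw [Fin.sum_univ_eq_sum_range (fun r => F (r + 1)) (n + 1)]
        symm
        refine sum_nbij' (fun r => r + 1) (fun r => r - 1) ?_ ?_ ?_ ?_ ?_
        · intro r hr
          rw [mem_range] at hr
          rw [mem_Icc]
          omega
        · intro r hr
          rw [mem_Icc] at hr
          rw [mem_range]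
          omega
        · intro r _
          exact Nat.add_sub_cancel r 1
        · intro r hr
          rw [mem_Icc] at hr
          exact Nat.sub_add_cancel hr.1
        · intro r _
          rfl
      rw [expCoeff, div_eq_iff hn, mul_comm _ ((n : ℝ) + 1), h2, h3]
      refine sum_congr rfl fun r _ => ?_
      have hr : (r : ℕ) < n + 1 := r.2
      rw [ih (n - r) (by omega), points_eq p hp2 (r + 1) (by omega) m]
      congr 3
      omega

lemma haar_eq {l : ℕ} (i : Fin l → ℕ) : haar i = Q282.HL.symm i := rfl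

lemma good_iff {g : ℕ} (p : ℕ) [Fact p.Prime] (m : Fin (2 * g + 1) → ℤ) :
    Good p m ↔ (2 : ZMod p) ≠ 0 ∧ Squarefree (Q282.HL.mpol (2 * g + 1) (fun k => (m k : ZMod p))) := by
  unfold Good
  have h1 : p ≠ 2 ↔ (2 : ZMod p) ≠ 0 := by
    rw [not_iff_not]
    constructor
    · intro h
      have h3 : ((2 : ℕ) : ZMod p) = 0 := by rw [ZMod.natCast_eq_zero_iff, h]
      exact_mod_cast h3
    · intro h
      have h3 : ((2 : ℕ) : ZMod p) = 0 := by exact_mod_cast h
      rw [ZMod.natCast_eq_zero_iff] at h3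
      exact (Nat.prime_dvd_prime_iff_eq Fact.out Nat.prime_two).1 h3
  rw [h1, ← PerfectField.separable_iff_squarefree]
  rfl

lemma haarProd_eq {k l : ℕ} (i : Fin k → Fin l → ℕ) : haarProd i = Q69CR.Prd.hh i := rfl

lemma variance_eq {J : Type} [Fintype J] {k r : ℕ} (c : J → ℝ) (i : J → Fin k → Fin r → ℕ) : variance c i = Q69CR.Prd.sgp c i := rfl

lemma gd_good {g : ℕ} (p : ℕ) [hp : Fact p.Prime] (m : Fin (2 * g + 1) → ℤ) (h : Good p m) :
    Q282.CL.gd g (fun k => (m k : ZMod p)) = 1 := by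
  unfold Q282.CL.gd
  rw [if_pos ((good_iff p m).1 h)]

lemma gd_bad {g : ℕ} (p : ℕ) [hp : Fact p.Prime] (m : Fin (2 * g + 1) → ℤ) (h : ¬ Good p m) :
    Q282.CL.gd g (fun k => (m k : ZMod p)) = 0 := by
  unfold Q282.CL.gd
  rw [if_neg fun h' => h ((good_iff p m).2 h')]

lemma mm_good {g r : ℕ} (i : Fin r → ℕ) (p : ℕ) [hp : Fact p.Prime] (m : Fin (2 * g + 1) → ℤ) (h : Good p m) :
    Q69CR.Prd.mm i (fun k => (m k : ZMod p)) = ∏ b, coef p (i b) m := by
  unfold Q69CR.Prd.mm
  rw [gd_good p m h]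
  unfold Q282.AX.locS
  rw [if_pos ((good_iff p m).1 h), mul_one, sub_add_cancel]
  refine prod_congr rfl fun b _ => ?_
  unfold coef
  rw [expCoeff_eq p h.1 m (i b), ZMod.card]

lemma mm_bad {g r : ℕ} (i : Fin r → ℕ) (p : ℕ) [hp : Fact p.Prime] (m : Fin (2 * g + 1) → ℤ) (h : ¬ Good p m) :
    Q69CR.Prd.mm i (fun k => (m k : ZMod p)) = 0 := by
  unfold Q69CR.Prd.mm
  rw [gd_bad p m h]
  unfold Q282.AX.locS
  rw [if_neg fun h' => h ((good_iff p m).2 h'), mul_zero, add_zero]

lemma zz_eq {g k r : ℕ} (i : Fin k → Fin r → ℕ) (p : ℕ) (hp : p.Prime) (m : Fin k × Fin (2 * g + 1) → ℤ) [Decidable (∀ a, Good p (curve m a))] :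
    Q69CR.Prd.zz i p (fun x => (m x : ZMod p)) =
      if ∀ a, Good p (curve m a) then ∏ a, ∏ b, coef p (i a b) (curve m a) - haarProd i else 0 := by
  have : Fact p.Prime := ⟨hp⟩
  unfold Q69CR.Prd.zz
  have e1 : ∀ a, Q69CR.Prd.mmp (i a) p (Q69CR.Prd.blk (fun x => (m x : ZMod p)) a) =
      Q69CR.Prd.mm (i a) (fun x => (curve m a x : ZMod p)) := by
    intro a
    unfold Q69CR.Prd.mmp
    rw [dif_pos hp]
    rfl
  have e2 : ∀ a, Q69CR.Prd.gdp p (Q69CR.Prd.blk (fun x => (m x : ZMod p)) a) =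
      Q282.CL.gd g (fun x => (curve m a x : ZMod p)) := by
    intro a
    unfold Q69CR.Prd.gdp
    rw [dif_pos hp]
    rfl
  unfold Q69CR.Prd.pp Q69CR.Prd.gg
  simp only [e1, e2]
  by_cases h : ∀ a, Good p (curve m a)
  · rw [if_pos h, prod_congr rfl fun a _ => mm_good (i a) p (curve m a) (h a), prod_congr rfl fun a _ => gd_good p (curve m a) (h a),
      prod_const_one, mul_one, haarProd_eq]
  · rw [if_neg h]
    push Not at h
    obtain ⟨a, ha⟩ := h
    rw [prod_eq_zero (mem_univ a) (mm_bad (i a) p (curve m a) ha), prod_eq_zero (mem_univ a) (gd_bad p (curve m a) ha), mul_zero, sub_zero]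

lemma centred_eq {J : Type} [Fintype J] {g k r : ℕ} (c : J → ℝ) (i : J → Fin k → Fin r → ℕ) (hs : 0 < variance c i) (p : ℕ) (hp : p.Prime)
    (m : Fin k × Fin (2 * g + 1) → ℤ) :
    centred c i p m = Real.sqrt (variance c i) * Q69CR.Prd.HP c i p (fun x => (m x : ZMod p)) := by
  classical
  have hσ : 0 < Real.sqrt (variance c i) := Real.sqrt_pos.2 hs
  unfold Q69CR.Prd.HP
  rw [← variance_eq, mul_div_cancel₀ _ hσ.ne']
  unfold centred
  by_cases h : ∀ a, Good p (curve m a)
  · rw [if_pos h]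
    refine sum_congr rfl fun j _ => ?_
    rw [zz_eq (i j) p hp m, if_pos h]
  · rw [if_neg h]
    symm
    refine sum_eq_zero fun j _ => ?_
    rw [zz_eq (i j) p hp m, if_neg h, mul_zero]

lemma proportion_eq {κ : Type} [Fintype κ] [DecidableEq κ] (N : κ → ℤ) (L : κ → ℕ) (P : (κ → ℤ) → Prop) :
    Q69CR.kpr N L P = proportion N L P := rfl

lemma proportion_congr {κ : Type} [Fintype κ] [DecidableEq κ] (N : κ → ℤ) (L : κ → ℕ) {P Q : (κ → ℤ) → Prop} (h : ∀ m, P m ↔ Q m) :
    proportion N L P = proportion N L Q := by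
  have : P = Q := funext fun m => propext (h m)
  rw [this]

lemma deviation_eq {J : Type} [Fintype J] {g k r : ℕ} (c : J → ℝ) (i : J → Fin k → Fin r → ℕ) (hs : 0 < variance c i) (n : ℕ)
    (m : Fin k × Fin (2 * g + 1) → ℤ) : deviation c i n m =
      (∑ q ∈ range n, Q69CR.Prd.HP c i (Nat.nth Nat.Prime q) (fun x => (m x : ZMod _))) / Real.sqrt n := by
  have hσ : 0 < Real.sqrt (variance c i) := Real.sqrt_pos.2 hs
  unfold deviation
  rw [sum_congr rfl fun q _ => centred_eq c i hs _ (Nat.prime_nth_prime q) m, ← mul_sum, Real.sqrt_mul hs.le,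
    mul_div_mul_left _ _ hσ.ne']

lemma variance_neg {J : Type} [Fintype J] {k r : ℕ} (c : J → ℝ) (i : J → Fin k → Fin r → ℕ) :
    variance (fun j => -c j) i = variance c i := by
  unfold variance
  refine sum_congr rfl fun j _ => sum_congr rfl fun j' _ => ?_
  ring

lemma deviation_neg {J : Type} [Fintype J] {g k r : ℕ} (c : J → ℝ) (i : J → Fin k → Fin r → ℕ) (n : ℕ)
    (m : Fin k × Fin (2 * g + 1) → ℤ) : deviation (fun j => -c j) i n m = -deviation c i n m := by
  unfold deviation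
  rw [variance_neg, ← neg_div, ← sum_neg_distrib]
  congr 1
  refine sum_congr rfl fun q _ => ?_
  unfold centred
  split_ifs
  · rw [← sum_neg_distrib]
    refine sum_congr rfl fun j _ => ?_
    ring
  · rw [neg_zero]

lemma upper (g k : ℕ) {J : Type} [Fintype J] (r : ℕ) (c : J → ℝ) (i : J → Fin k → Fin r → ℕ) (hi : ∀ j a, ∑ b, i j a b ≤ g)
    (hs : 0 < variance c i) (ε : ℝ) (hε : 0 < ε) : ∃ K y₀ δ : ℝ, 0 < K ∧ 1 ≤ y₀ ∧ 0 < δ ∧
    ∀ (n : ℕ) (y : ℝ), y₀ ≤ y → y ≤ δ * Real.sqrt n → ∀ (N : Fin k × Fin (2 * g + 1) → ℤ) (L : Fin k × Fin (2 * g + 1) → ℕ),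
      (∀ x, (Nat.nth Nat.Prime n : ℝ) ^ (K * y ^ 2) ≤ L x) →
      Real.exp (-((1 + ε) * (y ^ 2 / 2))) ≤ proportion N L (fun m => y ≤ deviation c i n m) ∧
      proportion N L (fun m => y ≤ deviation c i n m) ≤ Real.exp (-((1 - ε) * (y ^ 2 / 2))) := by
  obtain ⟨B, hB, hH, h2, h3⟩ := Q69CR.Prd.prod_data (g := g) c i hi hs
  obtain ⟨K, y₀, δ, hK, hy₀, hδ, h⟩ := Q69CR.mdp_kap (Fin k × Fin (2 * g + 1)) B hB ε hε
  refine ⟨K, y₀, δ, hK, hy₀, hδ, ?_⟩
  intro n y hy hyn N L hL
  have h1 := h (Q69CR.Prd.HP c i) hH h2 h3 n y hy hyn N L hL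
  have hn : 0 < Real.sqrt n := by
    by_contra h
    push Not at h
    have : δ * Real.sqrt n ≤ 0 := mul_nonpos_of_nonneg_of_nonpos hδ.le h
    linarith
  have e : proportion N L (fun m => y ≤ deviation c i n m) = Q69CR.kpr N L
      (fun t => y * Real.sqrt n ≤ ∑ q ∈ range n, Q69CR.Prd.HP c i (Nat.nth Nat.Prime q) (fun x => (t x : ZMod _))) := by
    rw [proportion_eq]
    refine proportion_congr N L fun m => ?_
    rw [deviation_eq c i hs, le_div_iff₀ hn]
  rw [e]
  exact h1

lemma tails (g k : ℕ) {J : Type} [Fintype J] (r : ℕ) (c : J → ℝ) (i : J → Fin k → Fin r → ℕ) (hi : ∀ j a, ∑ b, i j a b ≤ g)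
    (hs : 0 < variance c i) (ε : ℝ) (hε : 0 < ε) : ∃ K y₀ δ : ℝ, 0 < K ∧ 1 ≤ y₀ ∧ 0 < δ ∧
      GaussianTails ε K y₀ δ (fun n (m : Fin k × Fin (2 * g + 1) → ℤ) => deviation c i n m) := by
  obtain ⟨K₁, y₁, δ₁, hK₁, hy₁, hδ₁, h1⟩ := upper g k r c i hi hs ε hε
  obtain ⟨K₂, y₂, δ₂, hK₂, hy₂, hδ₂, h2⟩ := upper g k r (fun j => -c j) i hi (by rw [variance_neg]; exact hs) ε hε
  refine ⟨max K₁ K₂, max y₁ y₂, min δ₁ δ₂, lt_of_lt_of_le hK₁ (le_max_left _ _), hy₁.trans (le_max_left _ _),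
    lt_min hδ₁ hδ₂, ?_⟩
  intro n y hy hyn N L hL
  have hP : (1 : ℝ) ≤ Nat.nth Nat.Prime n := by
    exact_mod_cast (Nat.prime_nth_prime n).one_lt.le
  have hside : ∀ K : ℝ, K ≤ max K₁ K₂ → ∀ x, (Nat.nth Nat.Prime n : ℝ) ^ (K * y ^ 2) ≤ L x := fun K hK x =>
    (Real.rpow_le_rpow_of_exponent_le hP (mul_le_mul_of_nonneg_right hK (sq_nonneg y))).trans (hL x)
  refine ⟨h1 n y ((le_max_left _ _).trans hy)
    (hyn.trans (mul_le_mul_of_nonneg_right (min_le_left _ _) (Real.sqrt_nonneg _))) N L (hside K₁ (le_max_left _ _)), ?_⟩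
  have h3 := h2 n y ((le_max_right _ _).trans hy)
    (hyn.trans (mul_le_mul_of_nonneg_right (min_le_right _ _) (Real.sqrt_nonneg _))) N L (hside K₂ (le_max_right _ _))
  have e : proportion N L (fun m => deviation c i n m ≤ -y) = proportion N L (fun m => y ≤ deviation (fun j => -c j) i n m) := by
    refine proportion_congr N L fun m => ?_
    rw [deviation_neg]
    exact ⟨fun h => by linarith, fun h => by linarith⟩
  show Real.exp (-((1 + ε) * (y ^ 2 / 2))) ≤ proportion N L (fun m => deviation c i n m ≤ -y) ∧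
    proportion N L (fun m => deviation c i n m ≤ -y) ≤ Real.exp (-((1 - ε) * (y ^ 2 / 2)))
  rw [e]
  exact h3

lemma coef_zero {g : ℕ} (p : ℕ) (m : Fin (2 * g + 1) → ℤ) : coef p 0 m = 1 := by
  unfold coef
  rw [expCoeff, pow_zero, div_one]

lemma prodVariance_eq (k n : ℕ) : prodVariance k n = variance (Q69CR.Ell.bc k n) Q69CR.Ell.ix := by
  rw [variance_eq, Q69CR.Ell.sgp_ix]
  rfl

open Classical in
lemma prodCentred_eq {k : ℕ} (n p : ℕ) (m : Fin k × Fin (2 * 1 + 1) → ℤ) :
    (if ∀ a, Good (g := 1) p (curve m a) then prodCoef n p m - prodMean k n else 0) = centred (Q69CR.Ell.bc k n) Q69CR.Ell.ix p m := by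
  unfold centred
  by_cases h : ∀ a, Good (g := 1) p (curve m a)
  · rw [if_pos h, if_pos h]
    have e1 : ∀ S : Finset (Fin k), ∏ a, ∏ b, coef p (Q69CR.Ell.ix S a b) (curve m a) = ∏ a ∈ S, coef p 1 (curve m a) := by
      intro S
      have e2 : ∀ a, ∏ b, coef p (Q69CR.Ell.ix S a b) (curve m a) = if a ∈ S then coef p 1 (curve m a) else 1 := by
        intro a
        rw [Fin.prod_univ_one]
        unfold Q69CR.Ell.ix
        split_ifs with h1
        · rfl
        · exact coef_zero p _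
      rw [prod_congr rfl fun a _ => e2 a, prod_ite_mem, univ_inter]
    have e3 : ∀ S : Finset (Fin k), haarProd (Q69CR.Ell.ix S) = if S = ∅ then 1 else 0 := fun S => Q69CR.Ell.hh_ix S
    simp only [e1, e3]
    unfold prodCoef prodMean
    rw [Q69CR.Ell.coeff_expand]
    simp only [mul_sub, sum_sub_distrib]
    congr 1
    simp only [mul_ite, mul_one, mul_zero, sum_ite_eq', mem_univ, if_true]
    unfold Q69CR.Ell.bc
    simp
  · rw [if_neg h, if_neg h]

lemma prodDeviation_eq {k : ℕ} (n N : ℕ) (m : Fin k × Fin (2 * 1 + 1) → ℤ) :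
    prodDeviation n N m = deviation (Q69CR.Ell.bc k n) Q69CR.Ell.ix N m := by
  unfold prodDeviation deviation
  rw [prodVariance_eq]
  congr 1
  exact sum_congr rfl fun q _ => prodCentred_eq n (Nat.nth Nat.Prime q) m

/-- (1) Let `φ = ∑_j c_j ∏_a ∏_b a_{i_{j a b}}(C_a)` be a class function of degree at most `g` in every factor of `USp(2g) ^ k` with
variance `σ ^ 2 > 0`, and `ε > 0`. There are `K > 0`, `y₀ ≥ 1` and `δ > 0` such that for all `n`, all `y` with `y₀ ≤ y ≤ δ √n` and every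
box of coefficients with sides at least `p_n ^ (K y ^ 2)` the proportion of the `m` in the box with
`∑_{q < n} (φ(x_{p_q}) - ∫ φ) ≥ y √(σ ^ 2 n)` lies between `exp (-(1 + ε) y ^ 2 / 2)` and `exp (-(1 - ε) y ^ 2 / 2)`, and the same holds
for `≤ -y √(σ ^ 2 n)`. (2) The same for the coefficients `a_n(A)`, `0 < n < 2 k`, of the normalised `L`-polynomial of the product `A` of
`k` elliptic curves. -/
theorem result :
    (∀ (g k : ℕ) (J : Type) [Fintype J] (r : ℕ) (c : J → ℝ) (i : J → Fin k → Fin r → ℕ), (∀ j a, ∑ b, i j a b ≤ g) → 0 < variance c i →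
      ∀ ε : ℝ, 0 < ε → ∃ K y₀ δ : ℝ, 0 < K ∧ 1 ≤ y₀ ∧ 0 < δ ∧
        GaussianTails ε K y₀ δ (fun n (m : Fin k × Fin (2 * g + 1) → ℤ) => deviation c i n m)) ∧
    ∀ k n : ℕ, 0 < n → n < 2 * k → 0 < prodVariance k n ∧
      ∀ ε : ℝ, 0 < ε → ∃ K y₀ δ : ℝ, 0 < K ∧ 1 ≤ y₀ ∧ 0 < δ ∧
        GaussianTails ε K y₀ δ (fun N (m : Fin k × Fin (2 * 1 + 1) → ℤ) => prodDeviation n N m) := by
  constructor
  · intro g k J _ r c i hi hs ε hε
    exact tails g k r c i hi hs ε hε
  · intro k n hn hn'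
    have hs : 0 < variance (Q69CR.Ell.bc k n) Q69CR.Ell.ix := by
      rw [variance_eq]
      exact Q69CR.Ell.sgp_pos hn hn'
    refine ⟨by rw [prodVariance_eq]; exact hs, fun ε hε => ?_⟩
    have h := tails 1 k 1 (Q69CR.Ell.bc k n) Q69CR.Ell.ix (fun S a => by
      rw [Fin.sum_univ_one]
      unfold Q69CR.Ell.ix
      split_ifs <;> norm_num) hs ε hε
    have e : (fun N (m : Fin k × Fin (2 * 1 + 1) → ℤ) => prodDeviation n N m) =
        fun N m => deviation (Q69CR.Ell.bc k n) Q69CR.Ell.ix N m := by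
      funext N m
      exact prodDeviation_eq n N m
    rw [e]
    exact h

end Pool.Agent.Results.MP_753a9c_nt.ModerateDeviations
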