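import Pool.Agent.Y57.FD.Tup0
import Pool.Agent.Y57.FD.HypM

/-!
# The moments of order at most `2 g + 3` of the normalised traces `a_1(A)(p)` for almost all hyperelliptic Jacobians

`A` is the Jacobian of the hyperelliptic curve `C : Y ^ 2 = X ^ (2 g + 1) + m (2 g) X ^ (2 g) + ... + m 0` of genus `g ≥ 1` over
`ℚ`.  At an odd prime `p` for which the polynomial is separable modulo `p` the curve has good reduction, and the coefficient
`a_1(A)(p)` of the normalised Euler factor is `(#C(F_p) - p - 1) / √p`, where `#C(F_p)` is one more than the number of the affine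
points.  For the group `ST(A) = USp(2g)` (the case of most curves) the `j`-th moment of `Φ_{1*}(μ)`, `j ≤ 2 g + 3`, is
`(j - 1)!! = 1 · 3 · 5 ⋯ (j - 1)` for even `j ≤ 2 g`, it is `(2 g + 1)!! - 1` for `j = 2 g + 2`, and `0` for odd `j`.

The local means are computed in the starting file `Pool.Agent.Y57.FD.HypM`, the law of large numbers for the vectors which arise
from arbitrary integers by changing few digits is that of the starting file `Pool.Agent.Y57.FD.Tup0`.
-/

set_option autoImplicit false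

namespace Pool.Agent.Results.MP_753a9c_nt.TraceMomentsHyperelliptic

open Finset

/-- The number of the solutions of `Y ^ 2 = X ^ (2 g + 1) + m (2 g) X ^ (2 g) + ... + m 0` modulo `p`: the number of the points of the
curve over `F_p`, the point at infinity not included. -/
noncomputable def points {g : ℕ} (p : ℕ) (m : Fin (2 * g + 1) → ℕ) : ℕ :=
  Nat.card {P : ZMod p × ZMod p // P.2 ^ 2 = P.1 ^ (2 * g + 1) + ∑ i, (m i : ZMod p) * P.1 ^ (i : ℕ)}

/-- `p` is odd and `X ^ (2 g + 1) + m (2 g) X ^ (2 g) + ... + m 0` is separable modulo `p`, so that the curve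
`Y ^ 2 = X ^ (2 g + 1) + m (2 g) X ^ (2 g) + ... + m 0` has good reduction at `p`. -/
def Good {g : ℕ} (p : ℕ) (m : Fin (2 * g + 1) → ℕ) : Prop :=
  p ≠ 2 ∧ (Polynomial.X ^ (2 * g + 1) +
    ∑ i, Polynomial.C (m i : ZMod p) * Polynomial.X ^ (i : ℕ) : Polynomial (ZMod p)).Separable

open Classical in
/-- The coefficient `a_1(A)(p)` of the normalised Euler factor at the prime `p` of the Jacobian `A` of the curve
`C : Y ^ 2 = X ^ (2 g + 1) + m (2 g) X ^ (2 g) + ... + m 0`: it is `(#C(F_p) - p - 1) / √p`, and is put equal to `0` if the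
curve does not have the property `Good p m`. -/
noncomputable def a1 {g : ℕ} (p : ℕ) (m : Fin (2 * g + 1) → ℕ) : ℝ :=
  if Good p m then ((points p m : ℝ) - p) / Real.sqrt p else 0

/-- The `j`-th moment, `j ≤ 2 g + 3`, of the trace of the matrices of the group `USp(2g)`: `(j - 1)!!` for even `j ≤ 2 g`,
`(2 g + 1)!! - 1` for `j = 2 g + 2`, and `0` for odd `j`. -/
noncomputable def moment (g j : ℕ) : ℝ :=
  (if Even j then (Nat.doubleFactorial (j - 1) : ℝ) else 0) - if j = 2 * g + 2 then 1 else 0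

/-- For all weights in `W` and all orders `j ≤ 2 g + 3` the sum `∑ w k a_1(p_k) ^ j` over the first `n` primes
`p_0 = 2, p_1 = 3, ...` differs from the sum of the weights times the `j`-th moment by at most
`(max 1 (∑ w k ^ 2)) ^ (1 / 2) n ^ δ`. -/
def HasMoments {g : ℕ} (δ : ℝ) (W : Set (ℕ → ℝ)) (n : ℕ) (m : Fin (2 * g + 1) → ℕ) : Prop :=
  ∀ w ∈ W, ∀ j ≤ 2 * g + 3,
    |∑ k ∈ range n, w k * a1 (Nat.nth Nat.Prime k) m ^ j - (∑ k ∈ range n, w k) * moment g j| ≤
      Real.sqrt (max 1 (∑ k ∈ range n, w k ^ 2)) * (n : ℝ) ^ δ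

/-- The digit number `i` (counted from the right, beginning with `0`) of `n` in base `b`. -/
def digit (b i n : ℕ) : ℕ := n / b ^ i % b

/-- The number which arises from the number `N` with at most `K` digits in base `b`, if for every `i ∈ S`
the digit number `i` is replaced by `f i`. -/
def change (b K N : ℕ) (f : ℕ → ℕ) (S : Finset ℕ) : ℕ :=
  ∑ i ∈ range K, (if i ∈ S then f i else digit b i N) * b ^ i

open Classical in
/-- The number of the choices of `r l` of `K l` positions for all `l < d` for which the vector of the numbers obtained by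
changing the digits of the `N l` at the chosen positions (according to `f l`) does not have the property `E`. -/
noncomputable def exceptions {d : ℕ} (b : ℕ) (K r N : Fin d → ℕ) (f : Fin d → ℕ → ℕ) (E : (Fin d → ℕ) → Prop) : ℕ :=
  ((Fintype.piFinset (fun l => powersetCard (r l) (range (K l)))).filter
    (fun S => ¬ E (fun l => change b (K l) (N l) (f l) (S l)))).card

lemma exc_eq {d : ℕ} (b : ℕ) (K r N : Fin d → ℕ) (f : Fin d → ℕ → ℕ) (E : (Fin d → ℕ) → Prop) :
    exceptions b K r N f E = Pool.Agent.Y57.FD.exceptions b K r N f E := rfl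

lemma card_affine (p : ℕ) [Fact p.Prime] (hp : p ≠ 2) (f : ZMod p → ZMod p) :
    (Nat.card {P : ZMod p × ZMod p // P.2 ^ 2 = f P.1} : ℝ) = (p : ℝ) + ∑ x : ZMod p, (quadraticChar (ZMod p) (f x) : ℝ) := by
  classical
  have hchar : ringChar (ZMod p) ≠ 2 := by
    rw [ZMod.ringChar_zmod_n]
    exact hp
  have h1 : Nat.card {P : ZMod p × ZMod p // P.2 ^ 2 = f P.1} = ∑ x : ZMod p, Nat.card {y : ZMod p // y ^ 2 = f x} := by
    rw [← Nat.card_sigma]
    refine Nat.card_congr ⟨fun P => ⟨P.1.1, ⟨P.1.2, P.2⟩⟩, fun P => ⟨(P.1, P.2.1), P.2.2⟩, fun _ => rfl, fun _ => rfl⟩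
  have h2 : ∀ x : ZMod p, ((Nat.card {y : ZMod p // y ^ 2 = f x} : ℕ) : ℤ) = quadraticChar (ZMod p) (f x) + 1 := by
    intro x
    rw [← quadraticChar_card_sqrts hchar (f x)]
    congr 1
    rw [Nat.card_eq_fintype_card, Fintype.card_subtype]
    congr 1
    ext y
    simp
  rw [h1]
  push_cast
  have h3 : ∀ x : ZMod p, ((Nat.card {y : ZMod p // y ^ 2 = f x} : ℕ) : ℝ) = (quadraticChar (ZMod p) (f x) : ℝ) + 1 := by
    intro x
    have := h2 x
    exact_mod_cast this
  rw [sum_congr rfl (fun x _ => h3 x), sum_add_distrib, sum_const, card_univ, ZMod.card, nsmul_eq_mul, mul_one]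
  ring

lemma a1_eq {g : ℕ} (p : ℕ) (hp : p.Prime) (m : Fin (2 * g + 1) → ℕ) :
    a1 p m = Pool.Agent.Y57.FD.HM.tr g p m := by
  classical
  have : Fact p.Prime := ⟨hp⟩
  unfold a1 Pool.Agent.Y57.FD.HM.tr
  by_cases h2 : p = 2
  · rw [if_neg (fun h => h.1 h2), dif_neg (fun h => h.2 h2)]
  · rw [dif_pos ⟨hp, h2⟩]
    by_cases h3 : (Pool.Agent.Y57.FD.HM.pol p (D := 2 * g + 1) (fun i => ((m i : ℕ) : ZMod p))).Separable
    · have h4 : Good p m := ⟨h2, h3⟩
      rw [if_pos h4, if_pos h3]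
      unfold points
      rw [card_affine p h2 (fun x => x ^ (2 * g + 1) + ∑ i, (m i : ZMod p) * x ^ (i : ℕ)), ZMod.card, add_sub_cancel_left]
      rfl
    · have h4 : ¬ Good p m := fun h => h3 h.2
      rw [if_neg h4, if_neg h3]

/-- Let `g ≥ 1`, a base `b ≥ 2`, `δ > 0` and integers `A, B ≥ 0` be given. There are `c > 0` and `y₀` such that for all
integers `r l`, `K l` (`l = 0, ..., 2 g`), `y` with `2 r l ≤ K l` and `y ≥ y₀` the following holds.

Let `0 ≤ N l < b ^ K l` be arbitrary integers, prescribe for every position `j` a digit `f l j` different from the digit of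
`N l` in base `b`, and let for every `n` an arbitrary set `W n` of at most `n ^ B` weights `w : ℕ → [-1, 1]` be given (for instance
the indicator functions of intervals, residue classes or other sets of primes, or the values of characters). If one chooses `r l` of
the `K l` positions and replaces the digits of `N l` at these positions, then for all but at most a proportion `1 / y ^ A` of the
choices the Jacobian `A` of the curve `Y ^ 2 = X ^ (2 g + 1) + m (2 g) X ^ (2 g) + ... + m 0` with the numbers `m l` obtained has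
the following property: for all integers `n` with `y ≤ n ≤ exp (c r l)` for all `l`, all weights `w ∈ W n` and all `j ≤ 2 g + 3`
the weighted sum of `a_1(A)(p) ^ j` over the first `n` primes `p` is the sum of the weights times the `j`-th moment of the trace of
`USp(2g)`, up to an error of at most `(max 1 (∑ w k ^ 2)) ^ (1 / 2) n ^ δ`. -/
theorem result (g b : ℕ) (hg : 1 ≤ g) (hb : 2 ≤ b) (δ : ℝ) (hδ : 0 < δ) (A B : ℕ) :
    ∃ c : ℝ, 0 < c ∧ ∃ y₀ : ℕ, ∀ (K r : Fin (2 * g + 1) → ℕ) (y : ℕ), (∀ l, 2 * r l ≤ K l) → y₀ ≤ y →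
    ∀ N : Fin (2 * g + 1) → ℕ, (∀ l, N l < b ^ K l) →
    ∀ f : Fin (2 * g + 1) → ℕ → ℕ, (∀ l j, f l j < b ∧ f l j ≠ digit b j (N l)) →
    ∀ W : ℕ → Set (ℕ → ℝ), (∀ n, (W n).Finite ∧ (W n).ncard ≤ n ^ B) → (∀ n, ∀ w ∈ W n, ∀ k, |w k| ≤ 1) →
      (exceptions b K r N f (fun m => ∀ n : ℕ, y ≤ n → (∀ l, (n : ℝ) ≤ Real.exp (c * r l)) → HasMoments δ (W n) n m) : ℝ) ≤
        1 / (y : ℝ) ^ A * ∏ l, ((K l).choose (r l) : ℝ) := by
  classical
  -- the constants of the local means
  have hch : ∀ j : ℕ, ∃ C : ℝ, 0 ≤ C ∧ (j ≤ 2 * g + 3 → ∀ p : ℕ, p.Prime →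
      |Pool.Agent.TH894.NE.mean (2 * g + 1) p (fun m => a1 p m ^ j - moment g j)| ≤ C / p) := by
    intro j
    by_cases hj : j ≤ 2 * g + 3
    · obtain ⟨C, hC0, hC⟩ := Pool.Agent.Y57.FD.HM.tr_mean g j hj
      refine ⟨C, hC0, fun _ p hp => ?_⟩
      have h := hC p hp
      have e : (fun m : Fin (2 * g + 1) → ℕ => a1 p m ^ j - moment g j) =
          fun m => Pool.Agent.Y57.FD.HM.tr g p m ^ j + (- moment g j) := by
        funext m
        rw [a1_eq p hp, sub_eq_add_neg]
      rw [e, Pool.Agent.TH894.NE.mean_add, Pool.Agent.TH894.NE.mean_const _ p hp.pos, ← sub_eq_add_neg]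
      exact h
    · exact ⟨0, le_rfl, fun h1 => absurd h1 hj⟩
  choose C hC0 hC using hch
  obtain ⟨C', hC'⟩ : ∃ C' : ℝ, C' = ∑ j ∈ range (2 * g + 4), C j := ⟨_, rfl⟩
  have hC'0 : 0 ≤ C' := by
    rw [hC']
    exact sum_nonneg fun j _ => hC0 j
  obtain ⟨M, hM⟩ : ∃ M : ℝ, M = 1 + ∑ j ∈ range (2 * g + 4), ((2 * g : ℝ) ^ j + |moment g j|) := ⟨_, rfl⟩
  have hMj : ∀ j ≤ 2 * g + 3, (2 * g : ℝ) ^ j + |moment g j| ≤ M := by
    intro j hj
    have h1 : (2 * g : ℝ) ^ j + |moment g j| ≤ ∑ j ∈ range (2 * g + 4), ((2 * g : ℝ) ^ j + |moment g j|) :=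
      single_le_sum (f := fun j => (2 * g : ℝ) ^ j + |moment g j|) (fun j _ => by positivity) (mem_range.2 (by omega))
    linarith
  have hM1 : 1 ≤ M := by
    rw [hM]
    have : 0 ≤ ∑ j ∈ range (2 * g + 4), ((2 * g : ℝ) ^ j + |moment g j|) := sum_nonneg fun j _ => by positivity
    linarith
  obtain ⟨c, hc, y₁, h⟩ := Pool.Agent.Y57.FD.tuples0 b (2 * g + 1) 1 hb (by omega) le_rfl δ hδ A (B + (2 * g + 4)) M C' hM1 hC'0
  refine ⟨c, hc, y₁ + 2, fun K r y hrK hy N hN f hf W hW hW1 => ?_⟩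
  rw [exc_eq]
  have hWf : ∀ n, (W n).Finite := fun n => (hW n).1
  refine h K r y hrK (by omega) N hN f hf
    ((ℕ → ℝ) × ℕ) (fun n => (hWf n).toFinset ×ˢ range (2 * g + 4)) ?_ (fun l => l.1) ?_
    (fun l _ p m => if p.Prime ∧ l.2 ≤ 2 * g + 3 then a1 p m ^ l.2 - moment g l.2 else 0)
    ?_ ?_ ?_ _ ?_
  · intro n hn
    rw [card_product, ← Set.ncard_eq_toFinset_card _ (hWf n), pow_add, card_range]
    refine Nat.mul_le_mul (hW n).2 ?_
    calc 2 * g + 4 ≤ 2 ^ (2 * g + 4) := (Nat.lt_two_pow_self).le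
      _ ≤ n ^ (2 * g + 4) := Nat.pow_le_pow_left hn _
  · intro n l hl k
    rw [mem_product, Set.Finite.mem_toFinset] at hl
    exact hW1 n l.1 hl.1 k
  · intro l _ p hp m
    have h1 : a1 p m = a1 p (fun j => m j % p) := by
      rw [a1_eq p hp, a1_eq p hp]
      exact Pool.Agent.Y57.FD.HM.tr_mod g p m
    show (if p.Prime ∧ l.2 ≤ 2 * g + 3 then a1 p m ^ l.2 - moment g l.2 else 0) =
      (if p.Prime ∧ l.2 ≤ 2 * g + 3 then a1 p (fun j => m j % p) ^ l.2 - moment g l.2 else 0)
    rw [← h1]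
  · intro l _ p hp m
    show |(if p.Prime ∧ l.2 ≤ 2 * g + 3 then a1 p m ^ l.2 - moment g l.2 else 0)| ≤ M
    split_ifs with h1
    · refine (abs_sub _ _).trans (le_trans ?_ (hMj l.2 h1.2))
      refine add_le_add ?_ le_rfl
      rw [abs_pow, a1_eq p hp]
      exact pow_le_pow_left₀ (abs_nonneg _) (Pool.Agent.Y57.FD.HM.tr_le g p m) _
    · rw [abs_zero]
      linarith
  · intro n l hl
    rw [mem_product, mem_range] at hl
    have hj : l.2 ≤ 2 * g + 3 := by omega
    refine ⟨0, fun p hp => ?_⟩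
    have hp0 : (0 : ℝ) < p := by exact_mod_cast hp.pos
    have hp1 : (1 : ℝ) ≤ p := by exact_mod_cast hp.one_lt.le
    have h2 : (fun m : Fin (2 * g + 1) → ℕ => if p.Prime ∧ l.2 ≤ 2 * g + 3 then a1 p m ^ l.2 - moment g l.2 else 0) =
        fun m : Fin (2 * g + 1) → ℕ => a1 p m ^ l.2 - moment g l.2 := by
      funext m
      rw [if_pos ⟨hp, hj⟩]
    show |Pool.Agent.TH894.NE.mean (2 * g + 1) p (fun m : Fin (2 * g + 1) → ℕ =>
      if p.Prime ∧ l.2 ≤ 2 * g + 3 then a1 p m ^ l.2 - moment g l.2 else 0)| ≤ _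
    rw [h2]
    refine (hC l.2 hj p hp).trans ?_
    have h3 : C l.2 ≤ C' := by
      rw [hC']
      exact single_le_sum (f := C) (fun j _ => hC0 j) (mem_range.2 (by omega))
    have h4 : Real.sqrt p ≤ p := by
      rw [Real.sqrt_le_left hp0.le]
      nlinarith
    calc C l.2 / (p : ℝ) ≤ C' / p := div_le_div_of_nonneg_right h3 hp0.le
      _ ≤ C' / Real.sqrt p := div_le_div_of_nonneg_left hC'0 (Real.sqrt_pos.2 hp0) h4
  · intro m hm n hyn hnr w hw j hj
    have h1 := hm n (by omega) (by omega) hnr (w, j) (by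
      rw [mem_product, Set.Finite.mem_toFinset, mem_range]
      exact ⟨hw, by show j < 2 * g + 4; omega⟩)
    have h2 : ∑ k ∈ range n, w k * a1 (Nat.nth Nat.Prime k) m ^ j - (∑ k ∈ range n, w k) * moment g j =
        ∑ k ∈ range n, w k * ∏ _i : Fin 1,
        (if (Pool.Agent.TH894.NF.pr (k + _i)).Prime ∧ j ≤ 2 * g + 3 then
          a1 (Pool.Agent.TH894.NF.pr (k + _i)) m ^ j - moment g j else 0) := by
      rw [sum_mul, ← sum_sub_distrib]
      refine sum_congr rfl fun k _ => ?_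
      rw [Fin.prod_univ_one, if_pos ⟨Pool.Agent.TH894.NF.pr_prime _, hj⟩, ← mul_sub]
      rfl
    rw [h2]
    exact h1

end Pool.Agent.Results.MP_753a9c_nt.TraceMomentsHyperelliptic
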