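import Pool.Agent.Q181.UC.Rat

/-!
# The coefficients of the Euler factors in random unions of residue classes

Let `I = [-b, b]` (for an abelian variety `A/ℚ` of dimension `g` and `0 ≤ i ≤ 2 g`: `b` is the binomial
coefficient of `2 g` and `i`), `ν` a probability measure on `I` (the push forward of the Haar measure of
`ST(A)` under `Φ_i`), `S` a finite set of primes (the primes of bad reduction) and `x_p ∈ I` for `p ∉ S`
(`x_p = a_i(A)(p)`).  For a continuous function `f` on `I` and a set `A` of reduced residues modulo `P` let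
`dev f P A N` be the sum of `f(x_p) - ∫ f dν` over the `p ≤ N`, `p ∉ S`, with `p mod P ∈ A`, divided by the
number of all `p ≤ N`, `p ∉ S`.

1. (zero-one law) If the mean of one `f`, over all primes or over a union of classes modulo `q`, is wrong
infinitely often by at least `c`, then for every `P` (every multiple `P` of `q`) at most
`C (1 + 1 / c) 2 ^ φ(P) / √φ(P)` of the `2 ^ φ(P)` sets `A` are good for `f`.
2. (typical unions, without any hypothesis) For every `P` and all large `N`, for all `x` and `f`, all but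
`2 ^ φ(P) / t ^ 2` of the sets `A` have `|dev_A - dev / 2| < t C / √φ(P)`.
3. If for every `k` and `K` some `P` has at least `K 2 ^ φ(P) / √φ(P)` sets which are good for the `k`-th
moment, the sequence `x_p` is equidistributed.
4. Equidistribution in all single classes is equivalent to the existence of so many good sets for
multiples `P` of every `q`, for each moment separately or for all `f` simultaneously.
-/

set_option autoImplicit false

namespace Pool.Agent.Results.MP_753a9c_nt.UnionsOfClasses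

open Filter Topology MeasureTheory

section Definitions

open Classical in
/-- The primes `p ≤ N` outside `S`. -/
noncomputable def primesTo (S : Set ℕ) (N : ℕ) : Finset ℕ :=
  (Finset.Icc 1 N).filter (fun p => p.Prime ∧ p ∉ S)

/-- The mean of `u(p)` over the primes `p ≤ N` outside `S`. -/
noncomputable def mean (S : Set ℕ) (u : ℕ → ℝ) (N : ℕ) : ℝ :=
  (∑ p ∈ primesTo S N, u p) / ((primesTo S N).card : ℝ)

/-- The residues `a < P` coprime to `P`; there are `φ(P)` of them. -/
def reduced (P : ℕ) : Finset ℕ := (Finset.range P).filter (fun a => P.Coprime a)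

/-- The interval `[-b, b]`. -/
abbrev Int (b : ℝ) : Type := Set.Icc (-b) b

variable {b : ℝ}

/-- The sum of `f(x_p) - ∫ f dν` over the primes `p ≤ N`, `p ∉ S`, with `p mod P ∈ A`, divided by the
number of all primes `p ≤ N`, `p ∉ S`. -/
noncomputable def dev (ν : Measure (Int b)) (S : Set ℕ) (x : ℕ → Int b) (f : C(Int b, ℝ)) (P : ℕ)
    (A : Finset ℕ) (N : ℕ) : ℝ :=
  (∑ p ∈ (primesTo S N).filter (fun p => p % P ∈ A), (f (x p) - ∫ y, f y ∂ν)) /
    ((primesTo S N).card : ℝ)

/-- The sequence `x_p`, `p ∉ S`, is equidistributed on `I` with respect to `ν`. -/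
def Equidistributed (ν : Measure (Int b)) (S : Set ℕ) (x : ℕ → Int b) : Prop :=
  ∀ f : C(Int b, ℝ), Tendsto (mean S fun p => f (x p)) atTop (𝓝 (∫ y, f y ∂ν))

/-- The set `A` of residues modulo `P` is good: for every continuous function `f` on `I` the sum of
`f(x_p) - ∫ f dν` over the primes `p ≤ N`, `p ∉ S`, with `p mod P ∈ A` is `o(N / log N)`. -/
def Good (ν : Measure (Int b)) (S : Set ℕ) (x : ℕ → Int b) (P : ℕ) (A : Finset ℕ) : Prop :=
  ∀ f : C(Int b, ℝ), Tendsto (dev ν S x f P A) atTop (𝓝 0)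

open Classical in
/-- The number of the sets `A` of reduced residues modulo `P` which are good for `f`: the sum of
`f(x_p) - ∫ f dν` over the primes `p ≤ N`, `p ∉ S`, with `p mod P ∈ A` is `o(N / log N)`. -/
noncomputable def goodFor (ν : Measure (Int b)) (S : Set ℕ) (x : ℕ → Int b) (f : C(Int b, ℝ))
    (P : ℕ) : ℕ :=
  ((reduced P).powerset.filter (fun A => Tendsto (dev ν S x f P A) atTop (𝓝 0))).card

open Classical in
/-- The number of the good sets of reduced residues modulo `P`. -/
noncomputable def good (ν : Measure (Int b)) (S : Set ℕ) (x : ℕ → Int b) (P : ℕ) : ℕ :=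
  ((reduced P).powerset.filter (fun A => Good ν S x P A)).card

/-- The function `y ^ k` on `I`. -/
def power (b : ℝ) (k : ℕ) : C(Int b, ℝ) := ⟨fun y => (y : ℝ) ^ k, by fun_prop⟩

end Definitions

/-! ## Translation -/

section Translation
variable {b : ℝ}

/-- the complex function on the primes -/
noncomputable def cx (ν : Measure (Int b)) (x : ℕ → Int b) (f : C(Int b, ℝ)) (p : ℕ) : ℂ :=
  ((f (x p) - ∫ y, f y ∂ν : ℝ) : ℂ)

theorem dev_eq (ν : Measure (Int b)) (S : Set ℕ) (x : ℕ → Int b) (f : C(Int b, ℝ)) (P : ℕ)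
    (A : Finset ℕ) (N : ℕ) :
    ((dev ν S x f P A N : ℝ) : ℂ) = Pool.Agent.Q181.UR.dvq S (cx ν x f) P A N := by
  classical
  unfold dev Pool.Agent.Q181.UR.dvq cx
  push_cast
  rfl

theorem norm_dvq (ν : Measure (Int b)) (S : Set ℕ) (x : ℕ → Int b) (f : C(Int b, ℝ)) (P : ℕ)
    (A : Finset ℕ) (N : ℕ) :
    ‖Pool.Agent.Q181.UR.dvq S (cx ν x f) P A N‖ = |dev ν S x f P A N| := by
  rw [← dev_eq, Complex.norm_real, Real.norm_eq_abs]

theorem tendsto_dev (ν : Measure (Int b)) (S : Set ℕ) (x : ℕ → Int b) (f : C(Int b, ℝ)) (P : ℕ)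
    (A : Finset ℕ) : Tendsto (dev ν S x f P A) atTop (𝓝 0) ↔
      Tendsto (Pool.Agent.Q181.UR.dvq S (cx ν x f) P A) atTop (𝓝 0) := by
  rw [tendsto_zero_iff_norm_tendsto_zero (f := Pool.Agent.Q181.UR.dvq S (cx ν x f) P A),
    tendsto_zero_iff_norm_tendsto_zero (f := dev ν S x f P A)]
  simp only [norm_dvq, Real.norm_eq_abs]

theorem mean_sub (ν : Measure (Int b)) {S : Set ℕ} (hS : S.Finite) (x : ℕ → Int b)
    (f : C(Int b, ℝ)) : ∀ᶠ N : ℕ in atTop,
      mean S (fun p => f (x p)) N - ∫ y, f y ∂ν = dev ν S x f 1 {0} N := by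
  classical
  have h1 := (Pool.Agent.Q181.UR.rq_tendsto hS).eventually_ne one_ne_zero
  filter_upwards [h1] with N hN
  have hc : ((primesTo S N).card : ℝ) ≠ 0 := by
    intro h0
    apply hN
    unfold Pool.Agent.Q181.UR.rq
    have h2 : ((Pool.Agent.Q181.UR.pS S N).card : ℝ) = 0 := h0
    rw [h2, div_zero]
  unfold mean dev
  rw [Finset.filter_true_of_mem (fun v _ => by rw [Finset.mem_singleton, Nat.mod_one]),
    Finset.sum_sub_distrib, Finset.sum_const, nsmul_eq_mul, sub_div, mul_div_cancel_left₀ _ hc]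

theorem goodFor_eq (ν : Measure (Int b)) (S : Set ℕ) (x : ℕ → Int b) (f : C(Int b, ℝ)) (P : ℕ) :
    goodFor ν S x f P = Pool.Agent.Q181.UR.cnt S (cx ν x f) P := by
  classical
  unfold goodFor Pool.Agent.Q181.UR.cnt
  simp only [tendsto_dev]
  rfl

theorem cx_le (ν : Measure (Int b)) (x : ℕ → Int b) (f : C(Int b, ℝ)) :
    ∃ M : ℝ, ∀ p, ‖cx ν x f p‖ ≤ M := by
  refine ⟨‖f‖ + |∫ y, f y ∂ν|, fun p => ?_⟩
  unfold cx
  rw [Complex.norm_real, Real.norm_eq_abs]
  refine (abs_sub _ _).trans ?_
  have := f.norm_coe_le_norm (x p)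
  rw [Real.norm_eq_abs] at this
  linarith

/-! ## The test functions of norm at most one -/

/-- the continuous functions with distance at most one from their mean -/
def Idx (ν : Measure (Int b)) : Type := {f : C(Int b, ℝ) // ∀ y, |f y - ∫ y, f y ∂ν| ≤ 1}

/-- the functions on the primes -/
noncomputable def fu (ν : Measure (Int b)) (x : ℕ → Int b) (i : Idx ν) (p : ℕ) : ℂ := cx ν x i.1 p

theorem fu_le (ν : Measure (Int b)) (x : ℕ → Int b) (i : Idx ν) (p : ℕ) : ‖fu ν x i p‖ ≤ 1 := by
  unfold fu cx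
  rw [Complex.norm_real, Real.norm_eq_abs]
  exact i.2 _

theorem dev_smul (ν : Measure (Int b)) (S : Set ℕ) (x : ℕ → Int b) (c : ℝ) (f : C(Int b, ℝ)) (P : ℕ)
    (A : Finset ℕ) (N : ℕ) : dev ν S x (c • f) P A N = c * dev ν S x f P A N := by
  unfold dev
  rw [← mul_div_assoc, Finset.mul_sum]
  congr 1
  refine Finset.sum_congr rfl fun p _ => ?_
  have h1 : ∫ y, (c • f) y ∂ν = c * ∫ y, f y ∂ν := integral_const_mul _ _
  rw [h1, ContinuousMap.smul_apply, smul_eq_mul]
  ring

theorem good_iff (ν : Measure (Int b)) (S : Set ℕ) (x : ℕ → Int b) (P : ℕ) (A : Finset ℕ) :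
    Good ν S x P A ↔ ∀ i, Tendsto (Pool.Agent.Q181.UR.dvq S (fu ν x i) P A) atTop (𝓝 0) := by
  classical
  constructor
  · intro h i
    exact (tendsto_dev ν S x i.1 P A).1 (h i.1)
  · intro h f
    obtain ⟨M, hM⟩ : ∃ M : ℝ, ∀ y, |f y - ∫ y, f y ∂ν| ≤ M := by
      refine ⟨‖f‖ + |∫ y, f y ∂ν|, fun y => ?_⟩
      refine (abs_sub _ _).trans ?_
      have := f.norm_coe_le_norm y
      rw [Real.norm_eq_abs] at this
      linarith
    have hK : 0 < |M| + 1 := by positivity
    have hi : ∀ y, |((|M| + 1)⁻¹ • f) y - ∫ y, ((|M| + 1)⁻¹ • f) y ∂ν| ≤ 1 := by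
      intro y
      have h1 : ∫ y, ((|M| + 1)⁻¹ • f) y ∂ν = (|M| + 1)⁻¹ * ∫ y, f y ∂ν := integral_const_mul _ _
      rw [h1, ContinuousMap.smul_apply, smul_eq_mul, ← mul_sub, abs_mul,
        abs_of_pos (inv_pos.2 hK), inv_mul_le_one₀ hK]
      have := hM y
      have := le_abs_self M
      linarith
    have h1 := (tendsto_dev ν S x ((|M| + 1)⁻¹ • f) P A).2 (h ⟨(|M| + 1)⁻¹ • f, hi⟩)
    have h2 := h1.const_mul (|M| + 1)
    rw [mul_zero] at h2
    refine h2.congr fun N => ?_
    rw [dev_smul, mul_inv_cancel_left₀ hK.ne']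

theorem good_card (ν : Measure (Int b)) {S : Set ℕ} (hS : S.Finite) (x : ℕ → Int b) (P : ℕ) :
    Q197.PS.nF (Pool.Agent.Q181.UR.fam S (fu ν x)) P = good ν S x P := by
  classical
  unfold Q197.PS.nF good
  congr 1
  ext A
  rw [Finset.mem_filter, Finset.mem_filter, good_iff, Pool.Agent.Q181.UR.good_fam hS]
  rfl

theorem integrable_cont (ν : Measure (Int b)) [IsProbabilityMeasure ν] (f : C(Int b, ℝ)) :
    Integrable (fun y => f y) ν :=
  f.continuous.integrable_of_hasCompactSupport (HasCompactSupport.of_compactSpace _)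

/-- the moments suffice -/
theorem good_of_moments (ν : Measure (Int b)) [IsProbabilityMeasure ν] {S : Set ℕ} {x : ℕ → Int b}
    {P : ℕ} {A : Finset ℕ} (h : ∀ k : ℕ, Tendsto (dev ν S x (power b k) P A) atTop (𝓝 0)) :
    Good ν S x P A := by
  classical
  intro f
  have hadd : ∀ (f g : C(Int b, ℝ)) (N : ℕ),
      dev ν S x (f + g) P A N = dev ν S x f P A N + dev ν S x g P A N := by
    intro f g N
    unfold dev
    rw [← add_div, ← Finset.sum_add_distrib]
    congr 1
    refine Finset.sum_congr rfl fun p _ => ?_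
    have h1 : ∫ y, (f + g) y ∂ν = ∫ y, f y ∂ν + ∫ y, g y ∂ν :=
      integral_add (integrable_cont ν f) (integrable_cont ν g)
    rw [h1, ContinuousMap.add_apply]
    ring
  have hb : ∀ (f : C(Int b, ℝ)) (N : ℕ), |dev ν S x f P A N| ≤ 2 * ‖f‖ := by
    intro f N
    have hf : ∀ y, |f y| ≤ ‖f‖ := fun y => by
      have := f.norm_coe_le_norm y
      rwa [Real.norm_eq_abs] at this
    have hint : |∫ y, f y ∂ν| ≤ ‖f‖ := by
      rw [← Real.norm_eq_abs]
      refine (norm_integral_le_of_norm_le_const (C := ‖f‖)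
        (Eventually.of_forall f.norm_coe_le_norm)).trans ?_
      simp
    unfold dev
    rw [abs_div, Nat.abs_cast]
    rcases Nat.eq_zero_or_pos (primesTo S N).card with h0 | h0
    · rw [h0]
      simp
    · rw [div_le_iff₀ (by exact_mod_cast h0)]
      refine (Finset.abs_sum_le_sum_abs _ _).trans ?_
      refine (Finset.sum_le_sum (g := fun _ => 2 * ‖f‖) fun p _ => ?_).trans ?_
      · refine (abs_sub _ _).trans ?_
        have := hf (x p)
        linarith
      · rw [Finset.sum_const, nsmul_eq_mul, mul_comm]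
        refine mul_le_mul_of_nonneg_left ?_ (by positivity)
        exact_mod_cast Finset.card_filter_le _ _
  have hpoly : ∀ q : Polynomial ℝ,
      Tendsto (dev ν S x (q.toContinuousMapOn (Set.Icc (-b) b)) P A) atTop (𝓝 0) := by
    intro q
    induction q using Polynomial.induction_on' with
    | add p q hp hq =>
      have h1 := hp.add hq
      rw [add_zero] at h1
      refine h1.congr fun N => ?_
      rw [← hadd]
      congr 1
      ext y
      simp
    | monomial k a =>
      have h1 := (h k).const_mul a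
      rw [mul_zero] at h1
      refine h1.congr fun N => ?_
      rw [← dev_smul]
      congr 1
      ext y
      simp [power]
  rw [Metric.tendsto_nhds]
  intro ε hε
  obtain ⟨q, hq⟩ := exists_polynomial_near_continuousMap (-b) b f (ε / 4) (by linarith)
  have h1 := (Metric.tendsto_nhds.1 (hpoly q)) (ε / 4) (by linarith)
  filter_upwards [h1] with N hN
  rw [Real.dist_eq, sub_zero] at hN ⊢
  have e1 : dev ν S x f P A N = dev ν S x (q.toContinuousMapOn (Set.Icc (-b) b)) P A N +
      dev ν S x (f - q.toContinuousMapOn (Set.Icc (-b) b)) P A N := by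
    rw [← hadd]
    congr 1
    abel
  have e2 := hb (f - q.toContinuousMapOn (Set.Icc (-b) b)) N
  rw [norm_sub_rev] at e2
  rw [e1]
  have e3 := abs_add_le (dev ν S x (q.toContinuousMapOn (Set.Icc (-b) b)) P A N)
    (dev ν S x (f - q.toContinuousMapOn (Set.Icc (-b) b)) P A N)
  linarith

end Translation

/-- **The coefficients of the Euler factors in random unions of residue classes.**  There is an absolute
constant `C` such that for all `b`, every finite set `S` of primes and every probability measure `ν` on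
`I = [-b, b]` (for an abelian variety `A/ℚ` of dimension `g` and `0 ≤ i ≤ 2 g`: `b` is the binomial
coefficient of `2 g` and `i`, `S` the set of the bad primes, `ν` the push forward of the Haar measure of
`ST(A)` under `Φ_i`, and `x_p = a_i(A)(p)`):

1. if `f` is a continuous function on `I` with `|f - ∫ f dν| ≤ 1` and the mean of `f(x_p)` over `p ≤ N` is
at distance at least `c > 0` from `∫ f dν` for infinitely many `N`, then for every `P` at most
`C (1 + 1 / c) 2 ^ φ(P) / √φ(P)` of the `2 ^ φ(P)` sets `A` of reduced residues modulo `P` satisfy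
`dev f P A → 0`; the same for all multiples `P` of `q` if `|dev f q B| ≥ c` for infinitely many `N`, for
some set `B` of residues modulo `q`;
2. for every `P` and all large `N`: for all `x` and `f` and all `t > 0`, all but `2 ^ φ(P) / t ^ 2` of the
sets `A` satisfy `|dev f P A N - dev f 1 {0} N / 2| < t C / √φ(P)`, where `dev f 1 {0} N` is the mean of
`f(x_p)` over `p ≤ N` minus `∫ f dν`;
3. if for all `k` and `K` there is a `P` with at least `K 2 ^ φ(P) / √φ(P)` sets `A` which are good for the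
`k`-th moment, then the sequence `x_p` is equidistributed;
4. the following are equivalent: all single reduced classes of all moduli are good; for all `q` and `K`
there is a multiple `P` of `q` with at least `K 2 ^ φ(P) / √φ(P)` good sets; for all `k`, `q` and `K` there is a
multiple `P` of `q` with at least `K 2 ^ φ(P) / √φ(P)` sets which are good for the `k`-th moment. -/
theorem result : ∃ C : ℝ, 1 ≤ C ∧ ∀ (S : Set ℕ) (_ : S.Finite) (b : ℝ) (ν : Measure (Int b))
    [IsProbabilityMeasure ν],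
    (∀ (x : ℕ → Int b) (f : C(Int b, ℝ)), (∀ y, |f y - ∫ y, f y ∂ν| ≤ 1) → ∀ c : ℝ, 0 < c →
      ((∃ᶠ N in atTop, c ≤ |mean S (fun p => f (x p)) N - ∫ y, f y ∂ν|) → ∀ P : ℕ, 0 < P →
        (goodFor ν S x f P : ℝ) ≤ C * (1 + 1 / c) * 2 ^ P.totient / √P.totient) ∧
      (∀ (q : ℕ) (B : Finset ℕ), (∃ᶠ N in atTop, c ≤ |dev ν S x f q B N|) → ∀ P : ℕ, 0 < P →
        q ∣ P → (goodFor ν S x f P : ℝ) ≤ C * (1 + 1 / c) * 2 ^ P.totient / √P.totient)) ∧
    (∀ P : ℕ, 0 < P → ∀ᶠ N : ℕ in atTop, ∀ (x : ℕ → Int b) (f : C(Int b, ℝ)),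
      (∀ y, |f y - ∫ y, f y ∂ν| ≤ 1) → ∀ t : ℝ, 0 < t →
        (Nat.card {A : Finset ℕ // A ⊆ reduced P ∧ t * C / √P.totient ≤
          |dev ν S x f P A N - dev ν S x f 1 {0} N / 2|} : ℝ) ≤ 2 ^ P.totient / t ^ 2) ∧
    ∀ x : ℕ → Int b,
      ((∀ (k : ℕ) (K : ℝ), ∃ P : ℕ, 0 < P ∧
        K * 2 ^ P.totient / √P.totient ≤ goodFor ν S x (power b k) P) → Equidistributed ν S x) ∧
      List.TFAE [∀ q : ℕ, 0 < q → ∀ a ∈ reduced q, Good ν S x q {a},
        ∀ q : ℕ, 0 < q → ∀ K : ℝ, ∃ P : ℕ, 0 < P ∧ q ∣ P ∧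
          K * 2 ^ P.totient / √P.totient ≤ good ν S x P,
        ∀ k q : ℕ, 0 < q → ∀ K : ℝ, ∃ P : ℕ, 0 < P ∧ q ∣ P ∧
            K * 2 ^ P.totient / √P.totient ≤ goodFor ν S x (power b k) P] := by
  classical
  obtain ⟨C, hC, hpack⟩ := Pool.Agent.Q181.UR.pack
  have hle' : ∀ {b : ℝ} (ν : Measure (Int b)) (x : ℕ → Int b) (f : C(Int b, ℝ)),
      (∀ y, |f y - ∫ y, f y ∂ν| ≤ 1) → ∀ p, ‖cx ν x f p‖ ≤ 1 := by
    intro b ν x f hle p
    unfold cx
    rw [Complex.norm_real, Real.norm_eq_abs]
    exact hle _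
  refine ⟨C, hC, fun S hS b ν _ => ⟨?_, ?_, ?_⟩⟩
  · intro x f hle c hc
    constructor
    · intro hfr P hP
      have h1 : ∃ᶠ N in atTop, c ≤ ‖Pool.Agent.Q181.UR.dvq S (cx ν x f) 1 {0} N‖ := by
        refine (hfr.and_eventually (mean_sub ν hS x f)).mono fun N hN => ?_
        rw [norm_dvq, ← hN.2]
        exact hN.1
      have h2 := (hpack S hS).1 _ (hle' ν x f hle) c hc 1 {0} h1 P hP (one_dvd P)
      rw [goodFor_eq]
      unfold Pool.Agent.Q181.UR.cnt
      exact_mod_cast h2
    · intro q B hfr P hP hd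
      have h1 : ∃ᶠ N in atTop, c ≤ ‖Pool.Agent.Q181.UR.dvq S (cx ν x f) q B N‖ := by
        refine hfr.mono fun N hN => ?_
        rw [norm_dvq]
        exact hN
      have h2 := (hpack S hS).1 _ (hle' ν x f hle) c hc q B h1 P hP hd
      rw [goodFor_eq]
      unfold Pool.Agent.Q181.UR.cnt
      exact_mod_cast h2
  · intro P hP
    filter_upwards [(hpack S hS).2 P hP] with N hN x f hle t ht
    have h2 := hN _ (hle' ν x f hle) t ht
    refine le_trans (le_of_eq ?_) h2
    congr 1
    rw [← Fintype.card_coe, ← Nat.card_eq_fintype_card]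
    refine Nat.card_congr (Equiv.subtypeEquivRight fun A => ?_)
    rw [Finset.mem_filter, Finset.mem_powerset]
    refine and_congr Iff.rfl ?_
    rw [← dev_eq, ← dev_eq]
    have e1 : ((dev ν S x f P A N : ℝ) : ℂ) - ((dev ν S x f 1 {0} N : ℝ) : ℂ) / 2 =
        ((dev ν S x f P A N - dev ν S x f 1 {0} N / 2 : ℝ) : ℂ) := by
      push_cast
      ring
    rw [e1, Complex.norm_real, Real.norm_eq_abs]
  · intro x
    have hall : (∀ k q : ℕ, 0 < q → ∀ K : ℝ, ∃ P : ℕ, 0 < P ∧ q ∣ P ∧
          K * 2 ^ P.totient / √P.totient ≤ goodFor ν S x (power b k) P) →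
        ∀ q : ℕ, 0 < q → ∀ a ∈ reduced q, Good ν S x q {a} := by
      intro h q hq a ha
      refine good_of_moments ν fun k => ?_
      obtain ⟨M, hM⟩ := cx_le ν x (power b k)
      rw [tendsto_dev]
      exact (Pool.Agent.Q181.UR.one_iff hS hM).2 (fun q hq K => by
        obtain ⟨P, hP, hd, h2⟩ := h k q hq K
        refine ⟨P, hP, hd, ?_⟩
        rw [← goodFor_eq]
        exact h2) q hq a ha
    constructor
    · intro h f
      have h1 : Good ν S x 1 {0} := by
        refine good_of_moments ν fun k => ?_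
        obtain ⟨M, hM⟩ := cx_le ν x (power b k)
        rw [tendsto_dev]
        refine Pool.Agent.Q181.UR.one_all hS hM fun K => ?_
        obtain ⟨P, hP, h2⟩ := h k K
        refine ⟨P, hP, ?_⟩
        rw [← goodFor_eq]
        exact h2
      have h2 := h1 f
      have h3 : Tendsto (fun N => mean S (fun p => f (x p)) N - ∫ y, f y ∂ν) atTop (𝓝 0) :=
        h2.congr' (by
          filter_upwards [mean_sub ν hS x f] with N hN
          exact hN.symm)
      have h4 := h3.add_const (∫ y, f y ∂ν)
      rw [zero_add] at h4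
      refine h4.congr fun x => ?_
      ring
    · have h1 := Q197.PS.fam_iff (F := Pool.Agent.Q181.UR.fam S (fu ν x))
        (Pool.Agent.Q181.UR.fam_le (S := S) (fu_le ν x))
      simp only [good_card ν hS x, Pool.Agent.Q181.UR.good_fam hS, ← good_iff] at h1
      tfae_have 1 → 2 := h1.1
      tfae_have 2 → 3 := by
        intro h k q hq K
        obtain ⟨P, hP, hd, h2⟩ := h q hq K
        refine ⟨P, hP, hd, h2.trans ?_⟩
        have h3 : good ν S x P ≤ goodFor ν S x (power b k) P := by
          unfold good goodFor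
          apply Finset.card_le_card
          intro A hA
          rw [Finset.mem_filter] at hA ⊢
          exact ⟨hA.1, hA.2 _⟩
        exact_mod_cast h3
      tfae_have 3 → 1 := hall
      tfae_finish

end Pool.Agent.Results.MP_753a9c_nt.UnionsOfClasses
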